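import Pool.Agent.N299.DT.Defs

/-!
Project DT (MP_fb67b4_an): statements of the tasks.  `t_X : S_X` (possibly with hypotheses `S_Y`,
as listed in the subtask).
-/

set_option autoImplicit false

open scoped BoundedContinuousFunction Topology
open Filter

noncomputable section

namespace Pool.Agent.N299.DT

/-! ### algebra -/

/-- a family that does not generate the unit ideal vanishes in a simple quotient -/
def S_SQ : Prop := ∀ (E : Type) [CStarAlgebra E] (ι : Type) (X : ι → E), ¬ Cert X →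
  ∃ (S : Type) (_ : CStarAlgebra S) (π : E →⋆ₐ[ℂ] S),
    Sim S ∧ Function.Surjective π ∧ ∀ i, π (X i) = 0

def S_CEN : Prop := ∀ (S : Type) [CStarAlgebra S], Sim S → ∀ x : S, (∀ y, x * y = y * x) →
  ∃ c : ℂ, x = c • 1

/-- commuting generating pair of subalgebras -/
def Pair {S : Type} [CStarAlgebra S] (B B' : StarSubalgebra ℂ S) : Prop :=
  (∀ x ∈ B, ∀ y ∈ B', x * y = y * x) ∧ (B ⊔ B').topologicalClosure = ⊤

def S_PRM : Prop := ∀ (S : Type) [CStarAlgebra S], Sim S → ∀ B B' : StarSubalgebra ℂ S,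
  Pair B B' → ∀ x ∈ B, ∀ y ∈ B', x * y = 0 → x = 0 ∨ y = 0

def S_LI : Prop := ∀ (S : Type) [CStarAlgebra S], Sim S → ∀ B B' : StarSubalgebra ℂ S,
  Pair B B' → ∀ (r : ℕ) (x y : Fin r → S), (∀ i, x i ∈ B) → (∀ i, y i ∈ B') →
    LinearIndependent ℂ x → ∑ i, x i * y i = 0 → ∀ i, y i = 0

def S_AL : Prop := ∀ (E : Type) [CStarAlgebra E] (G : Type) (T : ℕ → G → E),
  (∀ J, IsClosed (Al T J : Set E)) ∧ (∀ J J' : Set ℕ, J ⊆ J' → Al T J ≤ Al T J') ∧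
  (∀ (J : Set ℕ) j g, j ∈ J → T j g ∈ Al T J) ∧
  (∀ (J : Set ℕ) (B : StarSubalgebra ℂ E), IsClosed (B : Set E) →
    (∀ j ∈ J, ∀ g, T j g ∈ B) → Al T J ≤ B) ∧
  (CS T → (∀ J J' : Set ℕ, Disjoint J J' → ∀ x ∈ Al T J, ∀ y ∈ Al T J', x * y = y * x) ∧
    (Al T Set.univ = ⊤ → ∀ J, Pair (Al T J) (Al T Jᶜ))) ∧
  (∀ (F : Type) [CStarAlgebra F] (π : E →⋆ₐ[ℂ] F) (J : Set ℕ),
    (∀ x ∈ Al T J, π x ∈ Al (fun j g => π (T j g)) J) ∧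
    (Function.Surjective π → Al T Set.univ = ⊤ → Al (fun j g => π (T j g)) Set.univ = ⊤))

/-! ### stage 1 -/

def S_NS : Prop := ∀ (n : ℕ) (S : Type) [CStarAlgebra S], Sim S →
  ∀ T : ℕ → Fin 4 × Fin n → S, CS T → (∀ j, Com (T j)) → Al T Set.univ = ⊤ →
    star (gel T) = gel T ∧ ∀ c : ℂ, gel T ≠ c • 1

def S_WIN : Prop := ∀ (E : Type) [CStarAlgebra E], (1 : E) ≠ 0 → ∀ g : E, star g = g →
  (∀ (S : Type) [CStarAlgebra S] (π : E →⋆ₐ[ℂ] S), Sim S → Function.Surjective π →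
    ∀ c : ℂ, π g ≠ c • 1) →
  ∃ (m k : ℕ) (V : CI m k → E), CellT m k V

def S_ST1 : Prop := ∀ (n : ℕ) (E : Type) [CStarAlgebra E], (1 : E) ≠ 0 →
  ∀ T : ℕ → Fin 4 × Fin n → E, CS T → (∀ j, Com (T j)) → Al T Set.univ = ⊤ →
  ∃ (m k : ℕ) (V : CI m k → E), CellT m k V

/-- sequences: `E ⊆ ℓ^∞(ℕ, F)` generated by the sequences `(T (N (k, j)))_k` -/
def S_SEQ : Prop := ∀ (F : Type) [CStarAlgebra F] (G : Type) (T : ℕ → G → F), CS T →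
  (∃ C : ℝ, ∀ j g, ‖T j g‖ ≤ C) → ∀ N : ℕ × ℕ → ℕ, Function.Injective N →
  ∃ (E : Type) (_ : CStarAlgebra E) (T' : ℕ → G → E) (ev : ℕ → E →⋆ₐ[ℂ] F),
    CS T' ∧ Al T' Set.univ = ⊤ ∧ (∀ k j g, ev k (T' j g) = T (N (k, j)) g) ∧
    (∀ x, (∀ k, ev k x = 0) → x = 0) ∧
    (∀ k x, ev k x ∈ Al T (Set.range fun j => N (k, j)))

/-! ### stage 2 -/

def S_C1 : Prop := ∀ (m : ℕ) (c c' : Fin (m + 1) → ℕ), (∑ l, c l) % (4 * m + 4) < m →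
  (∑ l, c' l + (2 * m + 2)) % (4 * m + 4) < m → ∃ l, c l + 2 ≤ c' l ∨ c' l + 2 ≤ c l

def S_C2 : Prop := ∀ (m : ℕ) (a b : Fin (m + 1) → ℕ), (∀ l, a l + 4 ≤ b l ∧ b l < m) →
  ∀ s : ℕ, ∃ c : Fin (m + 1) → ℕ, (∀ l, c l = a l ∨ c l = b l) ∧
    (∑ l, c l + s) % (4 * m + 4) < m

def S_ZA : Prop := ∀ (m k : ℕ) (E : Type) [CStarAlgebra E], (1 : E) ≠ 0 →
  ∀ T : ℕ → CI m k → E, CS T → (∀ j, CellT m k (T j)) → Al T Set.univ = ⊤ →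
  ∃ (K : ℕ) (V : Bool ⊕ (Fin 3 × Fin K) → E), PQT K V

def S_ZB : Prop := ∀ (K : ℕ) (E : Type) [CStarAlgebra E], (1 : E) ≠ 0 →
  ∀ T : ℕ → Bool ⊕ (Fin 3 × Fin K) → E, CS T → (∀ j, PQT K (T j)) → Al T Set.univ = ⊤ →
  ∃ (n : ℕ) (V : Unit ⊕ (Bool × Fin n) → E), ZT n V

/-- core 1 -/
def S_CORE : Prop := ∀ (n : ℕ) (E : Type) [CStarAlgebra E], (1 : E) ≠ 0 →
  ∀ T : ℕ → Fin 4 × Fin n → E, CS T → (∃ C : ℝ, ∀ j g, ‖T j g‖ ≤ C) → (∀ j, Com (T j)) →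
  ∃ (n' : ℕ) (V : ℕ → Unit ⊕ (Bool × Fin n') → E), CS V ∧ (∃ C : ℝ, ∀ j g, ‖V j g‖ ≤ C) ∧
    (∀ j, ZT n' (V j)) ∧ ∀ j g, V j g ∈ Al T Set.univ

/-! ### part B -/

def S_B1 : Prop := ∀ (n : ℕ) (E : Type) [CStarAlgebra E] (V : Unit ⊕ (Bool × Fin n) → E),
  ZT n V → ∃ (C : Fin 2 → E) (k : E) (r : Fin n → E), SB 0 C k r ∧ Der V (SBf C k r)

def S_B2 : Prop := ∀ (I I' κ κ' : Type) [Fintype I] [Fintype I'] [Fintype κ] [Fintype κ']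
  (E : Type) [CStarAlgebra E] (o : I) (o' : I') (C : I → E) (C' : I' → E) (k k' : E) (r : κ → E)
  (r' : κ' → E), SB o C k r → SB o' C' k' r' → CmS (SBf C k r) (SBf C' k' r') →
  SB (o, o') (fun p : I × I' => C p.1 * C' p.2) (k * k') (fun q : κ × κ' => r q.1 * r' q.2)

def S_B3 : Prop := ∀ n N : ℕ, ∃ R n' : ℕ, ∀ (E : Type) [CStarAlgebra E]
  (V : Fin R → Unit ⊕ (Bool × Fin n) → E), (∀ j, ZT n (V j)) →
  (∀ j k, j ≠ k → CmS (V j) (V k)) →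
  ∃ (C : Fin (N + 1) → E) (k : E) (r : Fin n' → E), SB 0 C k r ∧
    ∀ x, (∀ j, Cm x (V j)) → Cm x (SBf C k r)

def S_UN : Prop := ∀ (N : ℕ) (E : Type) [CStarAlgebra E] (a b : E)
  (P Q : Fin (N + 1) → Fin (N + 1) → E), MS a P → MS b Q →
  (∀ i j k l, P i j * Q k l = Q k l * P i j) →
  ∃ (θ : E) (ψ : Fin (N + 1) → Fin (N + 1) → E), MS θ ψ ∧
    1 - θ = (1 - a * a) * (1 - b * b) ∧
    (∀ x, (∀ i j, x * P i j = P i j * x) → (∀ i j, x * Q i j = Q i j * x) →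
      ∀ i j, x * ψ i j = ψ i j * x) ∧
    ∀ k, P 0 0 * k = k → a * k = k → ψ 0 0 * k = k ∧ θ * k = k

def S_IT : Prop := ∀ (N K : ℕ) (E : Type) [CStarAlgebra E] (a : Fin (K + 1) → E)
  (P : Fin (K + 1) → Fin (N + 1) → Fin (N + 1) → E) (d : Fin (K + 1) → E),
  (∀ l, MS (a l) (P l)) →
  (∀ l l', l ≠ l' → ∀ i j i' j', P l i j * P l' i' j' = P l' i' j' * P l i j) →
  (∀ l, star (d l) = d l) → (∀ l, d l * d l = 1 - a l) →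
  (∀ l l', d l * d l' = d l' * d l) → (∀ l l' i j, d l * P l' i j = P l' i j * d l) →
  ∃ (θ : E) (ψ : Fin (N + 1) → Fin (N + 1) → E), MS θ ψ ∧
    Pos ((4 ^ K : ℂ) • (star (List.ofFn d).prod * (List.ofFn d).prod) - (1 - θ)) ∧
    (∀ x, (∀ l i j, x * P l i j = P l i j * x) → ∀ i j, x * ψ i j = ψ i j * x) ∧
    ∀ k, P 0 0 0 * k = k → a 0 * k = k → ψ 0 0 * k = k ∧ θ * k = k

/-- the design: labels have distinct supports, contain the block `0` and cover all assignments -/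
structure Dsg (n K J : ℕ) (g : Fin J → Fin (K + 1) → Option (Fin n)) : Prop where
  zero : ∀ j, g j 0 ≠ none
  supp : ∀ j j', j ≠ j' → ∃ l, ¬ (g j l = none ↔ g j' l = none)
  cov : ∀ i : Fin (K + 1) → Fin n, ∃ j, ∀ l, g j l = none ∨ g j l = some (i l)

def S_COV : Prop := ∀ n : ℕ, 0 < n → ∃ (K J : ℕ) (g : Fin J → Fin (K + 1) → Option (Fin n)),
  Dsg n K J g

/-- family of a block in the label trick -/
def LBf {n : ℕ} {E : Type} (d k : E) (r : Fin n → E) : Option (Option (Fin n)) → E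
  | none => d
  | some none => k
  | some (some i) => r i

def S_LAB : Prop := ∀ (n K J : ℕ) (g : Fin J → Fin (K + 1) → Option (Fin n)), Dsg n K J g →
  ∀ (E : Type) [CStarAlgebra E] (d k : Fin (K + 1) → E) (r : Fin (K + 1) → Fin n → E),
  (∀ l, star (d l) = d l) → (∀ l, star (k l) = k l) → (∀ l, d l * k l = 0) →
  (∀ l, ∑ i, star (r l i) * (k l * k l) * r l i = 1) →
  (∀ l l', l ≠ l' → CmS (LBf (d l) (k l) (r l)) (LBf (d l') (k l') (r l'))) →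
  ∃ T T' : E, T = k 0 * T' ∧
    Pos (star T * T - star (List.ofFn d).prod * (List.ofFn d).prod) ∧
    ∀ x, (∀ l, Cm x (LBf (d l) (k l) (r l))) → x * T = T * x ∧ x * star T = star T * x

def S_FIN : Prop := ∀ (N : ℕ) (E : Type) [CStarAlgebra E] (θ : E)
  (ψ : Fin (N + 1) → Fin (N + 1) → E) (T : E) (ρ : ℝ), 0 < ρ → MS θ ψ →
  Pos (star T * T - (ρ : ℂ) • (1 - θ)) → ψ 0 0 * T = T → θ * T = T → ∀ ε : ℝ, 0 < ε →
  ∃ (c : Fin (N + 1) → E) (s : E), RW ε c s ∧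
    ∀ x, (∀ i j, x * ψ i j = ψ i j * x) → (x * T = T * x ∧ x * star T = star T * x) →
      Cm x c ∧ x * s = s * x ∧ x * star s = star s * x

/-- part B -/
def S_PB : Prop := ∀ n N : ℕ, 0 < n → ∃ R : ℕ, ∀ (E : Type) [CStarAlgebra E]
  (V : Fin R → Unit ⊕ (Bool × Fin n) → E), (∀ j, ZT n (V j)) →
  (∀ j k, j ≠ k → CmS (V j) (V k)) → ∀ ε : ℝ, 0 < ε →
  ∃ (c : Fin (N + 1) → E) (s : E), RW ε c s ∧
    ∀ x, (∀ j, Cm x (V j)) → Cm x c ∧ x * s = s * x ∧ x * star s = star s * x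

/-! ### central sequences -/

def S_F1 : Prop := ∀ (A Q : Type) [CStarAlgebra A] [CStarAlgebra Q] (ω : Ultrafilter ℕ)
  (q : (ℕ →ᵇ A) →⋆ₐ[ℂ] Q), IsUP A Q ω q → (∀ _ : Cen q →⋆ₐ[ℂ] ℂ, False) →
  ∃ (n : ℕ) (V : Fin 4 × Fin n → Q), (∀ g, V g ∈ Cen q) ∧ Com V

def S_F2 : Prop := ∀ (A Q : Type) [CStarAlgebra A] [CStarAlgebra Q]
  [TopologicalSpace.SeparableSpace A] (ω : Ultrafilter ℕ)
  (q : (ℕ →ᵇ A) →⋆ₐ[ℂ] Q), IsUP A Q ω q → (ω : Filter ℕ) ≤ atTop →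
  ∀ (n : ℕ) (V : Fin 4 × Fin n → Q), (∀ g, V g ∈ Cen q) → Com V →
  ∃ T : ℕ → Fin 4 × Fin n → Q, CS T ∧ (∃ C : ℝ, ∀ j g, ‖T j g‖ ≤ C) ∧ (∀ j, Com (T j)) ∧
    ∀ j g, T j g ∈ Cen q

def S_F4 : Prop := ∀ (A Q : Type) [CStarAlgebra A] [CStarAlgebra Q] (ω : Ultrafilter ℕ)
  (q : (ℕ →ᵇ A) →⋆ₐ[ℂ] Q), IsUP A Q ω q → (ω : Filter ℕ) ≤ atTop →
  (∀ (N : ℕ) (ε : ℝ), 0 < ε → ∃ (c : Fin (N + 1) → Q) (s : Q), RW ε c s ∧
    (∀ i, c i ∈ Cen q) ∧ s ∈ Cen q) → ZSt A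

/-- main theorem, first form -/
def S_MAIN : Prop := ∀ (A Q : Type) [CStarAlgebra A] [CStarAlgebra Q]
  [TopologicalSpace.SeparableSpace A] (ω : Ultrafilter ℕ)
  (q : (ℕ →ᵇ A) →⋆ₐ[ℂ] Q), IsUP A Q ω q → (ω : Filter ℕ) ≤ atTop →
  (∀ _ : Cen q →⋆ₐ[ℂ] ℂ, False) →
  (∀ (N : ℕ) (ε : ℝ), 0 < ε → ∃ (c : Fin (N + 1) → Q) (s : Q), RW ε c s ∧
    (∀ i, c i ∈ Cen q) ∧ s ∈ Cen q) ∧ ZSt A

end Pool.Agent.N299.DT
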