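import Pool.Agent.N299.DT.Stm
import Pool.Agent.Helper757.GL.Quot

/-!
Project DT: simple quotients.
-/

set_option autoImplicit false

open scoped Topology
open Filter Pool.Agent.Helper757.GL

noncomputable section

namespace Pool.Agent.N299.DT

variable {E : Type} [CStarAlgebra E]

/-- algebraic two-sided ideals, as sets -/
structure IsId (I : Set E) : Prop where
  zero : (0 : E) ∈ I
  add : ∀ x ∈ I, ∀ y ∈ I, x + y ∈ I
  mul : ∀ a b, ∀ x ∈ I, a * x * b ∈ I

lemma IsId.mul_left {I : Set E} (h : IsId I) (a : E) {x : E} (hx : x ∈ I) : a * x ∈ I := by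
  simpa using h.mul a 1 x hx

lemma IsId.mul_right {I : Set E} (h : IsId I) (a : E) {x : E} (hx : x ∈ I) : x * a ∈ I := by
  simpa using h.mul 1 a x hx

lemma IsId.sum {I : Set E} (h : IsId I) {ι : Type} (s : Finset ι) (f : ι → E)
    (hf : ∀ i ∈ s, f i ∈ I) : ∑ i ∈ s, f i ∈ I := by
  classical
  induction s using Finset.induction_on with
  | empty => simpa using h.zero
  | insert a s ha ih =>
    rw [Finset.sum_insert ha]
    exact h.add _ (hf a (Finset.mem_insert_self a s)) _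
      (ih fun i hi => hf i (Finset.mem_insert_of_mem hi))

/-- the ideal generated by a family -/
def gid {ι : Type} (X : ι → E) : Set E :=
  {x | ∃ (k : ℕ) (t : Fin k → ι) (a b : Fin k → E), ∑ i, a i * X (t i) * b i = x}

lemma isId_gid {ι : Type} (X : ι → E) : IsId (gid X) where
  zero := ⟨0, Fin.elim0, Fin.elim0, Fin.elim0, by simp⟩
  add := by
    rintro _ ⟨k, t, a, b, rfl⟩ _ ⟨k', t', a', b', rfl⟩
    refine ⟨k + k', Fin.append t t', Fin.append a a', Fin.append b b', ?_⟩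
    rw [Fin.sum_univ_add]
    simp only [Fin.append_left, Fin.append_right]
  mul := by
    rintro c d _ ⟨k, t, a, b, rfl⟩
    refine ⟨k, t, fun i => c * a i, fun i => b i * d, ?_⟩
    rw [Finset.mul_sum, Finset.sum_mul]
    simp only [mul_assoc]

lemma mem_gid {ι : Type} (X : ι → E) (i : ι) : X i ∈ gid X :=
  ⟨1, fun _ => i, fun _ => 1, fun _ => 1, by simp⟩

lemma isId_closure {I : Set E} (h : IsId I) : IsId (closure I) where
  zero := subset_closure h.zero
  add := by
    intro x hx y hy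
    exact map_mem_closure₂ continuous_add hx hy fun a ha b hb => h.add a ha b hb
  mul := by
    intro a b x hx
    exact map_mem_closure (f := fun x => a * x * b) (by fun_prop) hx fun y hy => h.mul a b y hy

lemma one_notMem_closure {I : Set E} (h : IsId I) (h1 : (1 : E) ∉ I) : (1 : E) ∉ closure I := by
  intro hc
  obtain ⟨x, hx, hd⟩ := Metric.mem_closure_iff.1 hc 1 one_pos
  rw [dist_eq_norm] at hd
  have hu : IsUnit x := by
    have := isUnit_one_sub_of_norm_lt_one hd
    rwa [sub_sub_cancel] at this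
  obtain ⟨u, rfl⟩ := hu
  apply h1
  have := h.mul_left ((u⁻¹ : Eˣ) : E) hx
  rwa [Units.inv_mul] at this

theorem t_SQ : S_SQ := by
  intro E _ ι X hX
  -- Zorn
  obtain ⟨M, hM⟩ : ∃ M, Maximal (fun I : Set E => IsId I ∧ gid X ⊆ I ∧ (1 : E) ∉ I) M := by
    have h0 : gid X ∈ {I : Set E | IsId I ∧ gid X ⊆ I ∧ (1 : E) ∉ I} :=
      ⟨isId_gid X, subset_rfl, fun ⟨k, t, a, b, h⟩ => hX ⟨k, t, a, b, h⟩⟩
    have hz : ∀ c ⊆ {I : Set E | IsId I ∧ gid X ⊆ I ∧ (1 : E) ∉ I}, IsChain (· ⊆ ·) c →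
        c.Nonempty → ∃ ub ∈ {I : Set E | IsId I ∧ gid X ⊆ I ∧ (1 : E) ∉ I}, ∀ s ∈ c, s ⊆ ub := by
      intro c hc hchain hne
      refine ⟨⋃₀ c, ⟨⟨?_, ?_, ?_⟩, ?_, ?_⟩, fun s hs => Set.subset_sUnion_of_mem hs⟩
      · obtain ⟨s, hs⟩ := hne
        exact ⟨s, hs, (hc hs).1.zero⟩
      · rintro x ⟨s, hs, hx⟩ y ⟨s', hs', hy⟩
        rcases hchain.total hs hs' with h | h
        · exact ⟨s', hs', (hc hs').1.add _ (h hx) _ hy⟩
        · exact ⟨s, hs, (hc hs).1.add _ hx _ (h hy)⟩
      · rintro a b x ⟨s, hs, hx⟩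
        exact ⟨s, hs, (hc hs).1.mul a b x hx⟩
      · obtain ⟨s, hs⟩ := hne
        exact (hc hs).2.1.trans (Set.subset_sUnion_of_mem hs)
      · rintro ⟨s, hs, h1⟩
        exact (hc hs).2.2 h1
    obtain ⟨M, -, hM⟩ := zorn_subset_nonempty _ hz (gid X) h0
    exact ⟨M, hM⟩
  obtain ⟨hI, hXM, h1M⟩ := hM.prop
  have hcl : IsClosed M := by
    rw [← closure_subset_iff_isClosed]
    exact hM.2 ⟨isId_closure hI, hXM.trans subset_closure, one_notMem_closure hI h1M⟩
      subset_closure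
  let I : Submodule ℂ E :=
    { carrier := M
      add_mem' := fun {a b} ha hb => hI.add a ha b hb
      zero_mem' := hI.zero
      smul_mem' := fun c x hx => by
        have := hI.mul_left (algebraMap ℂ E c) hx
        rwa [← Algebra.smul_def] at this }
  have H : Pool.Agent.Helper757.GL.CI I := ⟨hcl, fun a x hx => hI.mul_left a hx, fun a x hx => hI.mul_right a hx⟩
  refine ⟨Q H, inferInstance, { mkHom H with map_star' := fun a => mk_star _ a }, ⟨?_, ?_⟩,
    mkHom_surj H, fun i => (mkHom_eq_zero H _).2 (hXM (mem_gid X i))⟩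
  · intro h
    apply h1M
    rw [← mk_one H] at h
    exact (mkHom_eq_zero H 1).1 h
  · intro y hy
    obtain ⟨x, rfl⟩ := mkHom_surj H y
    have hx : x ∉ M := fun hx => hy ((mkHom_eq_zero H x).2 hx)
    -- the ideal generated by `M` and `x`
    let N : Set E := {w | ∃ m ∈ M, ∃ (k : ℕ) (a b : Fin k → E), w = m + ∑ i, a i * x * b i}
    have hN : IsId N := by
      refine ⟨⟨0, hI.zero, 0, Fin.elim0, Fin.elim0, by simp⟩, ?_, ?_⟩
      · rintro _ ⟨m, hm, k, a, b, rfl⟩ _ ⟨m', hm', k', a', b', rfl⟩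
        refine ⟨m + m', hI.add _ hm _ hm', k + k', Fin.append a a', Fin.append b b', ?_⟩
        rw [Fin.sum_univ_add]
        simp only [Fin.append_left, Fin.append_right]
        abel
      · rintro c d _ ⟨m, hm, k, a, b, rfl⟩
        refine ⟨c * m * d, hI.mul _ _ _ hm, k, fun i => c * a i, fun i => b i * d, ?_⟩
        rw [mul_add, add_mul, Finset.mul_sum, Finset.sum_mul]
        simp only [mul_assoc]
    have hMN : M ⊆ N := fun m hm => ⟨m, hm, 0, Fin.elim0, Fin.elim0, by simp⟩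
    have hxN : x ∈ N := ⟨0, hI.zero, 1, fun _ => 1, fun _ => 1, by simp⟩
    have h1N : (1 : E) ∈ N := by
      by_contra h1N
      exact hx (hM.2 ⟨hN, hXM.trans hMN, h1N⟩ hMN hxN)
    obtain ⟨m, hm, k, a, b, h⟩ := h1N
    refine ⟨k, fun i => mkHom H (a i), fun i => mkHom H (b i), ?_⟩
    have h2 := congrArg (mkHom H) h
    rw [map_add, (mkHom_eq_zero H m).2 hm, zero_add, map_sum, map_one] at h2
    simp only [map_mul] at h2
    exact h2.symm

theorem t_CEN : S_CEN := by
  intro S _ hS x hx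
  have : Nontrivial S := ⟨⟨1, 0, hS.1⟩⟩
  obtain ⟨c, hc⟩ := spectrum.nonempty x
  refine ⟨c, ?_⟩
  by_contra hne
  have hne' : algebraMap ℂ S c - x ≠ 0 := by
    intro h
    rw [sub_eq_zero, Algebra.algebraMap_eq_smul_one] at h
    exact hne h.symm
  have hcomm : ∀ y, (algebraMap ℂ S c - x) * y = y * (algebraMap ℂ S c - x) := by
    intro y
    rw [sub_mul, mul_sub, hx, Algebra.commutes]
  obtain ⟨k, a, b, h⟩ := hS.2 _ hne'
  have h1 : (algebraMap ℂ S c - x) * ∑ i, a i * b i = 1 := by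
    rw [← h, Finset.mul_sum]
    refine Finset.sum_congr rfl fun i _ => ?_
    rw [← mul_assoc, hcomm]
  have h2 : (∑ i, a i * b i) * (algebraMap ℂ S c - x) = 1 := by
    rw [← hcomm]
    exact h1
  exact hc ⟨⟨_, _, h1, h2⟩, rfl⟩

end Pool.Agent.N299.DT
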