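import Pool.Agent.N299.DT.Stm
import Pool.Agent.H308R2.ZS.Stubs
import Pool.Agent.H188R3.TensorDefs

/-!
Project DT (MP_fb67b4_an): statements of the second wave (exact relations, universal property of
the dimension drop algebras, Jiang–Su algebra in the central sequence algebra, `A ⊗ Z ≅ A`).
-/

set_option autoImplicit false

open scoped BoundedContinuousFunction Topology Matrix.Norms.L2Operator
open Filter

noncomputable section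

namespace Pool.Agent.N299.DT

open Pool.Agent.H308R2.ZS (dimDrop MM Vals Ix)
open Pool.Agent.H188R3 (IsMinTensor IsCStarNormed prodMap)

/-- exact version of `S_FIN` -/
def S_FINX : Prop := ∀ (N : ℕ) (E : Type) [CStarAlgebra E] (θ : E)
  (ψ : Fin (N + 1) → Fin (N + 1) → E) (T : E) (ρ : ℝ), 0 < ρ → MS θ ψ →
  Pos (star T * T - (ρ : ℂ) • (1 - θ)) → ψ 0 0 * T = T → θ * T = T →
  ∃ (c : Fin (N + 1) → E) (s : E), RW 0 c s ∧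
    ∀ x, (∀ i j, x * ψ i j = ψ i j * x) → (x * T = T * x ∧ x * star T = star T * x) →
      Cm x c ∧ x * s = s * x ∧ x * star s = star s * x

/-- exact version of `S_PB` -/
def S_PBX : Prop := ∀ n N : ℕ, 0 < n → ∃ R : ℕ, ∀ (E : Type) [CStarAlgebra E]
  (V : Fin R → Unit ⊕ (Bool × Fin n) → E), (∀ j, ZT n (V j)) →
  (∀ j k, j ≠ k → CmS (V j) (V k)) →
  ∃ (c : Fin (N + 1) → E) (s : E), RW 0 c s ∧
    ∀ x, (∀ j, Cm x (V j)) → Cm x c ∧ x * s = s * x ∧ x * star s = star s * x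

/-- main theorem with exact relations -/
def S_MAINX : Prop := ∀ (A Q : Type) [CStarAlgebra A] [CStarAlgebra Q]
  [TopologicalSpace.SeparableSpace A] (ω : Ultrafilter ℕ)
  (q : (ℕ →ᵇ A) →⋆ₐ[ℂ] Q), IsUP A Q ω q → (ω : Filter ℕ) ≤ atTop →
  (∀ _ : Cen q →⋆ₐ[ℂ] ℂ, False) →
  ∀ N : ℕ, ∃ (c : Fin (N + 1) → Q) (s : Q), RW 0 c s ∧ (∀ i, c i ∈ Cen q) ∧ s ∈ Cen q

/-! ### universal property of the dimension drop algebras -/

/-- order zero map `φ` of `M_{n+1}` (images `φ i j` of the matrix units) and an element `v` -/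
structure RV {F : Type} [CStarAlgebra F] {n : ℕ} (φ : Fin (n + 1) → Fin (n + 1) → F) (v : F) :
    Prop where
  st : ∀ i j, star (φ i j) = φ j i
  mul : ∀ i j l, φ i j * φ j l = (∑ m, φ m m) * φ i l
  orth : ∀ i j k l, j ≠ k → φ i j * φ k l = 0
  pos : ∀ i, Pos (φ i i)
  vv : star v * v = 1 - ∑ m, φ m m
  ve : φ 0 0 * v = v

/-- the central element (coordinate of `[0,1]`) -/
def zel {F : Type} [CStarAlgebra F] {n : ℕ} (φ : Fin (n + 1) → Fin (n + 1) → F) (v : F) : F :=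
  star v * v + ∑ i, φ i 0 * (v * star v) * φ 0 i

/-- fibre statement at `t` -/
def FBG (n : ℕ) (t : ℝ) : Prop := ∀ (F : Type) [CStarAlgebra F]
  (φ : Fin (n + 1) → Fin (n + 1) → F) (v : F), RV φ v → zel φ v = (t : ℂ) • (1 : F) →
  ∀ (φ0 : Fin (n + 1) → Fin (n + 1) → dimDrop n) (k0 : Fin (n + 1) → dimDrop n)
    (v0 : dimDrop n), Vals n φ0 k0 v0 →
  ∃ σ : dimDrop n →⋆ₐ[ℂ] F, (∀ i j, σ (φ0 i j) = φ i j) ∧ σ v0 = v

def S_FB0 : Prop := ∀ n : ℕ, FBG n 0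

def S_FB1 : Prop := ∀ n : ℕ, FBG n 1

def S_FBM : Prop := ∀ (n : ℕ) (t : ℝ), 0 < t → t < 1 → FBG n t

/-- algebraic consequences: `zel` is central, and a scalar value lies in `[0,1]` -/
def S_RVZ : Prop := ∀ (n : ℕ) (F : Type) [CStarAlgebra F]
  (φ : Fin (n + 1) → Fin (n + 1) → F) (v : F), RV φ v →
  star (zel φ v) = zel φ v ∧ (∀ i j, zel φ v * φ i j = φ i j * zel φ v) ∧
  zel φ v * v = v * zel φ v ∧
  ∀ t : ℝ, (1 : F) ≠ 0 → zel φ v = (t : ℂ) • (1 : F) → 0 ≤ t ∧ t ≤ 1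

/-- norms are computed in the fibres over a central element -/
def S_CX : Prop := ∀ (E : Type) [CStarAlgebra E] (z x : E), star z = z →
  (∀ y, z * y = y * z) → ∃ (t : ℝ) (F : Type) (_ : CStarAlgebra F) (π : E →⋆ₐ[ℂ] F),
    π z = (t : ℂ) • (1 : F) ∧ ‖x‖ ≤ ‖π x‖

/-- universal property -/
def S_UNIV : Prop := ∀ (n : ℕ) (E : Type) [CStarAlgebra E]
  (φ : Fin (n + 1) → Fin (n + 1) → E) (v : E), RV φ v →
  ∀ (φ0 : Fin (n + 1) → Fin (n + 1) → dimDrop n) (k0 : Fin (n + 1) → dimDrop n)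
    (v0 : dimDrop n), Vals n φ0 k0 v0 →
  ∃ σ : dimDrop n →⋆ₐ[ℂ] E, (∀ i j, σ (φ0 i j) = φ i j) ∧ σ v0 = v ∧
    ∀ B : StarSubalgebra ℂ E, IsClosed (B : Set E) → (∀ i j, φ i j ∈ B) → v ∈ B →
      ∀ x, σ x ∈ B

/-! ### embedding of a limit into the central sequence algebra -/

def S_DIAG : Prop := ∀ (A Q : Type) [CStarAlgebra A] [CStarAlgebra Q]
  [TopologicalSpace.SeparableSpace A] (ω : Ultrafilter ℕ)
  (q : (ℕ →ᵇ A) →⋆ₐ[ℂ] Q), IsUP A Q ω q → (ω : Filter ℕ) ≤ atTop →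
  ∀ (Z : Type) [CStarAlgebra Z] [TopologicalSpace.SeparableSpace Z]
  (D : ℕ → StarSubalgebra ℂ Z), Monotone D → Dense (⋃ k, (D k : Set Z)) →
  (∀ k, ∃ σ : D k →⋆ₐ[ℂ] Q, (∀ x, σ x ∈ Cen q) ∧ ∀ x, ‖σ x‖ ≤ ‖x‖) →
  ∃ θ : Z →⋆ₐ[ℂ] Q, ∀ x, θ x ∈ Cen q

/-- existence of ultrapowers -/
def S_UPX : Prop := ∀ (B : Type) [CStarAlgebra B] (ω : Ultrafilter ℕ),
  ∃ (P : Type) (_ : CStarAlgebra P) (p : (ℕ →ᵇ B) →⋆ₐ[ℂ] P), IsUP B P ω p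

/-! ### `A ⊗ Z ≅ A` -/

/-- one-sided approximate intertwining -/
def S_INT : Prop := ∀ (A B : Type) [CStarAlgebra A] [CStarAlgebra B]
  [TopologicalSpace.SeparableSpace A] [TopologicalSpace.SeparableSpace B] (ι : A →⋆ₐ[ℂ] B),
  Function.Injective ι →
  (∀ (F : Finset A) (G : Finset B) (ε : ℝ), 0 < ε → ∃ v ∈ unitary B,
    (∀ a ∈ F, ‖v * ι a - ι a * v‖ < ε) ∧ ∀ b ∈ G, ∃ a, ‖star v * b * v - ι a‖ < ε) →
  Nonempty (A ≃⋆ₐ[ℂ] B)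

/-- `Z` has approximately inner half flip: the embeddings `z ↦ z ⊗ 1` and `z ↦ 1 ⊗ z` of `Z` into
the minimal tensor product `Z ⊗ Z` are approximately unitarily equivalent -/
def HalfFlip (Z : Type) [CStarAlgebra Z] : Prop :=
  ∀ (T : Type) [CStarAlgebra T] (f g : Z →⋆ₐ[ℂ] T), IsMinTensor f g →
    ∀ (F : Finset Z) (ε : ℝ), 0 < ε → ∃ u ∈ unitary T, ∀ z ∈ F, ‖u * f z * star u - g z‖ < ε

/-- nuclearity of `Z` (same as `W658.ZS.Nuclear`) -/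
def Nuc (Z : Type) [CStarAlgebra Z] : Prop :=
  ∀ (A D E : Type) [CStarAlgebra A] [CStarAlgebra D] [CStarAlgebra E] (f : A →⋆ₐ[ℂ] D)
    (g : Z →⋆ₐ[ℂ] D) (f' : A →⋆ₐ[ℂ] E) (g' : Z →⋆ₐ[ℂ] E), IsCStarNormed f g →
    IsCStarNormed f' g' → ∀ x, ‖prodMap f g x‖ = ‖prodMap f' g' x‖

/-- the approximation hypothesis of the intertwining -/
def S_APPR : Prop := ∀ (A B Q Z : Type) [CStarAlgebra A] [CStarAlgebra B] [CStarAlgebra Q]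
  [CStarAlgebra Z] (ω : Ultrafilter ℕ) (q : (ℕ →ᵇ A) →⋆ₐ[ℂ] Q), IsUP A Q ω q →
  (ω : Filter ℕ) ≤ atTop → Nontrivial B → IsSimpleRing Z → Nuc Z → HalfFlip Z →
  ∀ θ : Z →⋆ₐ[ℂ] Q, (∀ x, θ x ∈ Cen q) →
  ∀ (ι : A →⋆ₐ[ℂ] B) (κ : Z →⋆ₐ[ℂ] B), (∀ a z, ι a * κ z = κ z * ι a) →
  DenseRange (prodMap ι κ) →
  ∀ (F : Finset A) (G : Finset B) (ε : ℝ), 0 < ε → ∃ v ∈ unitary B,
    (∀ a ∈ F, ‖v * ι a - ι a * v‖ < ε) ∧ ∀ b ∈ G, ∃ a, ‖star v * b * v - ι a‖ < ε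

/-- `A` absorbs `Z`: `A ⊗ Z ≅ A` (minimal tensor product) -/
def Absb (A Z : Type) [CStarAlgebra A] [CStarAlgebra Z] : Prop :=
  ∃ (T : Type) (_ : CStarAlgebra T) (f : A →⋆ₐ[ℂ] T) (g : Z →⋆ₐ[ℂ] T),
    IsMinTensor f g ∧ Nonempty (T ≃⋆ₐ[ℂ] A)

def S_ABS : Prop := ∀ (A Q Z : Type) [CStarAlgebra A] [CStarAlgebra Q] [CStarAlgebra Z]
  [TopologicalSpace.SeparableSpace A] [TopologicalSpace.SeparableSpace Z]
  (ω : Ultrafilter ℕ) (q : (ℕ →ᵇ A) →⋆ₐ[ℂ] Q), IsUP A Q ω q → (ω : Filter ℕ) ≤ atTop →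
  Nontrivial A → IsSimpleRing Z → Nuc Z → HalfFlip Z →
  ∀ θ : Z →⋆ₐ[ℂ] Q, (∀ x, θ x ∈ Cen q) → Absb A Z

end Pool.Agent.N299.DT
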