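import Pool.Agent.N299.DT.Fin
import Pool.Agent.N340.DT.AL
import Pool.Agent.N340.DT.LI
import Pool.Agent.N383.DT.WIN
import Pool.Agent.N281.DT.SEQ
import Pool.Agent.N281.DT.F2
import Pool.Agent.N495.DT.C12
import Pool.Agent.N495.DT.COV
import Pool.Agent.N483.DT.ZB
import Pool.Agent.N388.DT.B1
import Pool.Agent.N434.DT.B2
import Pool.Agent.N434.DT.F1
import Pool.Agent.N434.DT.IT
import Pool.Agent.N434.DT.LAB
import Pool.Agent.N22.DT.UN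
import Pool.Agent.N749.DT.FIN
import Pool.Agent.N749.DT.FINX
import Pool.Agent.N682.DT.F4
import Pool.Agent.N346.DT.CX
import Pool.Agent.N618.DT.Alg
import Pool.Agent.N618.DT.FB0
import Pool.Agent.N618.DT.FB1
import Pool.Agent.N403.DT.FBM
import Pool.Agent.N152.DT.UNIV
import Pool.Agent.N475.DT.DIAG
import Pool.Agent.N704.DT.UPX
import Pool.Agent.N348.DT.APPR
import Pool.Agent.N147.DT.ABS
import Pool.Agent.N519.DT.NS
import Pool.Agent.N438.DT.INT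
import Pool.Agent.N294.DT.ZA
import Pool.Agent.N299.DT.SQ
import Pool.Agent.H7ZS.ZS_PHM
import Pool.Agent.H930R2.ZS_WU

/-!
Project DT: everything plugged together.
-/

set_option autoImplicit false

open scoped BoundedContinuousFunction Topology
open Filter

noncomputable section

namespace Pool.Agent.N299.DT

theorem all_NS : S_NS :=
  Pool.Agent.N519.DT.t_NS Pool.Agent.N340.DT.t_AL t_CEN (Pool.Agent.N340.DT.t_LI t_CEN)

theorem all_ZA : S_ZA :=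
  Pool.Agent.N294.DTZA.t_ZA t_SQ Pool.Agent.N340.DT.t_PRM Pool.Agent.N340.DT.t_AL
    Pool.Agent.N495.DT.t_C1 Pool.Agent.N495.DT.t_C2

theorem all_CORE (hNS : S_NS) (hZA : S_ZA) : S_CORE :=
  t_CORE Pool.Agent.N340.DT.t_AL
    (t_ST1 Pool.Agent.N340.DT.t_AL hNS (Pool.Agent.N383.DT.t_WIN t_SQ))
    (Pool.Agent.N281.DT.t_SEQ Pool.Agent.N340.DT.t_AL) hZA
    (Pool.Agent.N483.DT.ZB.t_ZB t_SQ Pool.Agent.N340.DT.t_PRM Pool.Agent.N340.DT.t_AL)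

theorem all_B3 : S_B3 := Pool.Agent.N434.DT.t_B3 Pool.Agent.N388.DT.t_B1 Pool.Agent.N434.DT.t_B2

theorem all_PB : S_PB :=
  t_PB all_B3 (Pool.Agent.N434.DT.t_IT Pool.Agent.N22.DT.UN.t_UN) Pool.Agent.N434.DT.t_LAB
    Pool.Agent.N495.DT.t_COV Pool.Agent.N749.DT.t_FIN

theorem all_PBX : S_PBX :=
  t_PBX all_B3 (Pool.Agent.N434.DT.t_IT Pool.Agent.N22.DT.UN.t_UN) Pool.Agent.N434.DT.t_LAB
    Pool.Agent.N495.DT.t_COV Pool.Agent.N749.DT.t_FINX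

theorem all_MAIN (hNS : S_NS) (hZA : S_ZA) : S_MAIN :=
  t_MAIN Pool.Agent.N340.DT.t_AL (Pool.Agent.N434.DT.t_F1 t_SQ t_CEN) Pool.Agent.N281.DT.t_F2
    Pool.Agent.N682.DT.t_F4 (all_CORE hNS hZA) all_PB

theorem all_MAINX (hNS : S_NS) (hZA : S_ZA) : S_MAINX :=
  t_MAINX Pool.Agent.N340.DT.t_AL (Pool.Agent.N434.DT.t_F1 t_SQ t_CEN) Pool.Agent.N281.DT.t_F2
    (all_CORE hNS hZA) all_PBX

theorem all_UNIV : S_UNIV :=
  Pool.Agent.N152.DT.t_UNIV Pool.Agent.N346.DT.CX.t_CX Pool.Agent.N618.DT.t_FB0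
    Pool.Agent.N403.DTFBM.t_FBM Pool.Agent.N618.DT.t_FB1 Pool.Agent.N618.DT.t_RVZ

theorem all_EMB (hNS : S_NS) (hZA : S_ZA) : S_EMB :=
  t_EMB (Pool.Agent.H308R2.ZS.T_PHM.t_PHM Pool.Agent.H308R2.ZS.T_WU.t_WU) (all_MAINX hNS hZA)
    all_UNIV Pool.Agent.N475.DT.t_DIAG

theorem all_ABSJ (hNS : S_NS) (hZA : S_ZA) (hINT : S_INT) : S_ABSJ :=
  t_ABSJ (all_EMB hNS hZA) (t_ABS hINT (Pool.Agent.N348.DT.t_APPR Pool.Agent.N704.DT.t_UPX))

end Pool.Agent.N299.DT
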