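import Pool.Agent.N299.DT.Stm

/-!
Project DT: assembly.
-/

set_option autoImplicit false

open scoped BoundedContinuousFunction Topology
open Filter

noncomputable section

namespace Pool.Agent.N299.DT

variable {E F : Type} [CStarAlgebra E] [CStarAlgebra F]

lemma CmS.symm' {ι κ : Type} {V : ι → E} {W : κ → E} (h : CmS V W) : CmS W V := by
  intro i j
  refine ⟨(h j i).1.symm, ?_⟩
  have := congrArg star (h j i).2
  simp only [star_mul, star_star] at this
  exact this

lemma CmS.map {ι κ : Type} {V : ι → E} {W : κ → E} (h : CmS V W) (f : E →⋆ₐ[ℂ] F) :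
    CmS (fun i => f (V i)) (fun j => f (W j)) := by
  intro i j
  simp only [← map_star, ← map_mul]
  exact ⟨congrArg f (h i j).1, congrArg f (h i j).2⟩

lemma CS.map {G : Type} {T : ℕ → G → E} (h : CS T) (f : E →⋆ₐ[ℂ] F) :
    CS fun j g => f (T j g) := fun j k hjk => (h j k hjk).map f

lemma com_map {n : ℕ} {V : Fin 4 × Fin n → E} (h : Com V) (f : E →⋆ₐ[ℂ] F) :
    Com fun g => f (V g) := by
  unfold Com at *
  simp only [← map_mul, ← map_sub, ← map_sum]
  rw [h, map_one]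

lemma hp_map {n : ℕ} (V : Fin 4 × Fin n → E) (f : E →⋆ₐ[ℂ] F) (i : Fin n × Bool) :
    hp (fun g => f (V g)) i = f (hp V i) := by
  unfold hp
  split_ifs <;> simp only [map_smul, map_add, map_star]

lemma gel_map {n : ℕ} (T : ℕ → Fin 4 × Fin n → E) (f : E →⋆ₐ[ℂ] F) :
    gel (fun j g => f (T j g)) = f (gel T) := by
  unfold gel
  simp only [map_sum, apply_ite f, map_zero, map_mul, hp_map]

lemma hp_sa {n : ℕ} (V : Fin 4 × Fin n → E) (i : Fin n × Bool) : star (hp V i) = hp V i := by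
  unfold hp
  split_ifs
  · simp [add_comm]
  · rw [star_smul, star_add, star_star, add_comm (star _)]
    simp

lemma hp_comm {n : ℕ} {T : ℕ → Fin 4 × Fin n → E} (h : CS T) {j k : ℕ} (hjk : j ≠ k)
    (i i' : Fin n × Bool) : hp (T j) i * hp (T k) i' = hp (T k) i' * hp (T j) i := by
  have key : ∀ x ∈ ({y | ∃ g, y = T j g ∨ y = star (T j g)} : Set E),
      ∀ y ∈ ({y | ∃ g, y = T k g ∨ y = star (T k g)} : Set E), x * y = y * x := by
    rintro x ⟨g, hg⟩ y ⟨g', hg'⟩
    have h1 := h j k hjk g g'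
    have h2 := (CmS.symm' (h j k hjk)) g' g
    rcases hg with rfl | rfl <;> rcases hg' with rfl | rfl
    · exact h1.1
    · exact h1.2
    · exact h2.2.symm
    · have := congrArg star h2.1
      simp only [star_mul] at this
      exact this
  have a1 := key (T j (0, i.1)) ⟨_, .inl rfl⟩ (T k (0, i'.1)) ⟨_, .inl rfl⟩
  have a2 := key (T j (0, i.1)) ⟨_, .inl rfl⟩ (star (T k (0, i'.1))) ⟨_, .inr rfl⟩
  have a3 := key (star (T j (0, i.1))) ⟨_, .inr rfl⟩ (T k (0, i'.1)) ⟨_, .inl rfl⟩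
  have a4 := key (star (T j (0, i.1))) ⟨_, .inr rfl⟩ (star (T k (0, i'.1))) ⟨_, .inr rfl⟩
  unfold hp
  split_ifs <;>
    simp only [star_smul, mul_add, add_mul, smul_mul_assoc, mul_smul_comm, smul_add, a1, a2, a3,
      a4, smul_smul] <;>
    module

lemma gel_sa {n : ℕ} {T : ℕ → Fin 4 × Fin n → E} (h : CS T) : star (gel T) = gel T := by
  unfold gel
  rw [star_sum]
  simp only [star_sum]
  refine Finset.sum_congr rfl fun l _ => Finset.sum_congr rfl fun l' _ => ?_
  split_ifs with hl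
  · simp
  · rw [star_sum]
    refine Finset.sum_congr rfl fun i _ => ?_
    rw [star_mul, hp_sa, hp_sa]
    exact hp_comm h (fun hh => hl (Fin.ext hh.symm)) i i

theorem t_ST1 (hAL : S_AL) (hNS : S_NS) (hWIN : S_WIN) : S_ST1 := by
  intro n E _ h1 T hCS hCom hgen
  refine hWIN E h1 (gel T) (gel_sa hCS) ?_
  intro S _ π hS hπ c
  rw [← gel_map]
  exact (hNS n S hS (fun j g => π (T j g)) (hCS.map π) (fun j => com_map (hCom j) π)
    (((hAL E (Fin 4 × Fin n) T).2.2.2.2.2 S π Set.univ).2 hπ hgen)).2 c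

lemma cellT_map {m k : ℕ} {V : CI m k → E} (h : CellT m k V) (f : E →⋆ₐ[ℂ] F) :
    CellT m k fun g => f (V g) where
  pos := h.pos
  sa := fun c => by rw [← map_star, h.sa]
  orth := fun c c' hc => by rw [← map_mul, h.orth c c' hc, map_zero]
  full := fun i => by
    have := congrArg f (h.full i)
    rw [map_one, map_sum] at this
    rw [← this]
    refine Finset.sum_congr rfl fun c _ => ?_
    rw [apply_ite f, map_zero, map_sum]
    simp only [map_mul]

lemma pqt_map {K : ℕ} {V : Bool ⊕ (Fin 3 × Fin K) → E} (h : PQT K V) (f : E →⋆ₐ[ℂ] F) :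
    PQT K fun g => f (V g) where
  psa := by rw [← map_star, h.psa]
  qsa := by rw [← map_star, h.qsa]
  orth := by rw [← map_mul, h.orth, map_zero]
  full := by
    have := congrArg f h.full
    rw [map_one, map_sum] at this
    rw [← this]
    simp only [map_mul]

lemma zt_map {n : ℕ} {V : Unit ⊕ (Bool × Fin n) → E} (h : ZT n V) (f : E →⋆ₐ[ℂ] F) :
    ZT n fun g => f (V g) where
  sq := by rw [← map_mul, h.sq, map_zero]
  full := by
    have := congrArg f h.full
    rw [map_one, map_sum] at this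
    rw [← this]
    simp only [map_mul]

lemma norm_hom_le (f : E →⋆ₐ[ℂ] F) (x : E) : ‖f x‖ ≤ ‖x‖ :=
  NonUnitalStarAlgHom.norm_apply_le (f : E →⋆ₙₐ[ℂ] F) x

/-- one step of the construction -/
lemma seq_step (hAL : S_AL) {G G' : Type} [Finite G'] {T : ℕ → G → E} (hCS : CS T)
    {E' : Type} [CStarAlgebra E'] (ev : ℕ → E' →⋆ₐ[ℂ] E)
    (hev : ∀ k x, ev k x ∈ Al T (Set.range fun j => Nat.pair k j)) (V : G' → E') :
    CS (fun k g => ev k (V g)) ∧ (∃ C : ℝ, ∀ k g, ‖ev k (V g)‖ ≤ C) ∧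
      ∀ k g, ev k (V g) ∈ Al T Set.univ := by
  obtain ⟨h1, h2, h3, h4, h5, h6⟩ := hAL E G T
  refine ⟨?_, ?_, ?_⟩
  · intro k k' hkk' g g'
    have hd : Disjoint (Set.range fun j => Nat.pair k j) (Set.range fun j => Nat.pair k' j) := by
      rw [Set.disjoint_left]
      rintro x ⟨j, rfl⟩ ⟨j', hj'⟩
      simp only at hj'
      exact hkk' (Nat.pair_eq_pair.1 hj').1.symm
    have hc := (h5 hCS).1 _ _ hd
    exact ⟨hc _ (hev k _) _ (hev k' _), hc _ (hev k _) _ (star_mem (hev k' _))⟩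
  · have : Fintype G' := Fintype.ofFinite G'
    refine ⟨∑ g, ‖V g‖, fun k g => (norm_hom_le _ _).trans ?_⟩
    exact Finset.single_le_sum (f := fun g => ‖V g‖) (fun _ _ => norm_nonneg _)
      (Finset.mem_univ g)
  · intro k g
    exact h2 _ _ (Set.subset_univ _) (hev k _)

lemma one_ne_of_hom (f : E →⋆ₐ[ℂ] F) (h : (1 : F) ≠ 0) : (1 : E) ≠ 0 := by
  intro h0
  apply h
  rw [← map_one f, h0, map_zero]

theorem t_CORE (hAL : S_AL) (hST1 : S_ST1) (hSEQ : S_SEQ) (hZA : S_ZA) (hZB : S_ZB) :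
    S_CORE := by
  intro n E _ h1 T hCS hb hCom
  have hN : Function.Injective (fun p : ℕ × ℕ => Nat.pair p.1 p.2) := by
    intro p p' h
    exact Prod.ext (Nat.pair_eq_pair.1 h).1 (Nat.pair_eq_pair.1 h).2
  -- first step
  obtain ⟨E1, _, T1, ev1, c1, g1, e1, i1, m1⟩ := hSEQ E _ T hCS hb _ hN
  have com1 : ∀ j, Com (T1 j) := by
    intro j
    unfold Com
    rw [← sub_eq_zero]
    apply i1
    intro k
    rw [map_sub, map_one, map_sum]
    simp only [map_mul, map_sub, e1]
    rw [sub_eq_zero]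
    exact hCom _
  obtain ⟨m, k, V1, hV1⟩ := hST1 n E1 (one_ne_of_hom (ev1 0) h1) T1 c1 com1 g1
  obtain ⟨cs1, b1, mem1⟩ := seq_step hAL hCS ev1 m1 V1
  have cell1 : ∀ j, CellT m k (fun g => ev1 j (V1 g)) := fun j => cellT_map hV1 (ev1 j)
  -- second step
  obtain ⟨E2, _, T2, ev2, c2, g2, e2, i2, m2⟩ := hSEQ E _ _ cs1 b1 _ hN
  have com2 : ∀ j, CellT m k (T2 j) := by
    intro j
    refine ⟨hV1.pos, ?_, ?_, ?_⟩
    · intro c
      rw [← sub_eq_zero]
      apply i2
      intro l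
      rw [map_sub, map_star, e2, sub_eq_zero]
      exact (cell1 _).sa c
    · intro c c' hc
      apply i2
      intro l
      rw [map_mul, e2, e2]
      exact (cell1 _).orth c c' hc
    · intro i
      rw [← sub_eq_zero]
      apply i2
      intro l
      rw [map_sub, map_one, map_sum, sub_eq_zero]
      rw [← (cell1 (Nat.pair l j)).full i]
      refine Finset.sum_congr rfl fun c _ => ?_
      rw [apply_ite (ev2 l), map_zero, map_sum]
      simp only [map_mul, e2]
  obtain ⟨K, V2, hV2⟩ := hZA m k E2 (one_ne_of_hom (ev2 0) h1) T2 c2 com2 g2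
  obtain ⟨cs2, b2, mem2⟩ := seq_step hAL cs1 ev2 m2 V2
  have pq2 : ∀ j, PQT K (fun g => ev2 j (V2 g)) := fun j => pqt_map hV2 (ev2 j)
  -- third step
  obtain ⟨E3, _, T3, ev3, c3, g3, e3, i3, m3⟩ := hSEQ E _ _ cs2 b2 _ hN
  have com3 : ∀ j, PQT K (T3 j) := by
    intro j
    refine ⟨?_, ?_, ?_, ?_⟩
    · rw [← sub_eq_zero]
      apply i3
      intro l
      rw [map_sub, map_star, e3, sub_eq_zero]
      exact (pq2 _).psa
    · rw [← sub_eq_zero]
      apply i3
      intro l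
      rw [map_sub, map_star, e3, sub_eq_zero]
      exact (pq2 _).qsa
    · apply i3
      intro l
      rw [map_mul, e3, e3]
      exact (pq2 _).orth
    · rw [← sub_eq_zero]
      apply i3
      intro l
      rw [map_sub, map_one, map_sum, sub_eq_zero]
      rw [← (pq2 (Nat.pair l j)).full]
      simp only [map_mul, e3]
  obtain ⟨n', V3, hV3⟩ := hZB K E3 (one_ne_of_hom (ev3 0) h1) T3 c3 com3 g3
  obtain ⟨cs3, b3, mem3⟩ := seq_step hAL cs2 ev3 m3 V3
  refine ⟨n', fun k g => ev3 k (V3 g), cs3, b3, fun j => zt_map hV3 (ev3 j), fun j g => ?_⟩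
  have t1 := (hAL E _ (fun k g => ev2 k (V2 g))).2.2.2.1 Set.univ (Al T Set.univ)
    ((hAL E _ T).1 _) (fun j _ g => ?_)
  · exact t1 (mem3 j g)
  · have t2 := (hAL E _ (fun k g => ev1 k (V1 g))).2.2.2.1 Set.univ (Al T Set.univ)
      ((hAL E _ T).1 _) (fun j _ g => mem1 j g)
    exact t2 (mem2 j g)

end Pool.Agent.N299.DT
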