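import Pool.Agent.N299.DT.Asm2
import Pool.Agent.N299.DT.Stm2

/-!
Project DT: assembly, exact relations.
-/

set_option autoImplicit false

open scoped BoundedContinuousFunction Topology
open Filter

noncomputable section

namespace Pool.Agent.N299.DT

variable {E F : Type} [CStarAlgebra E] [CStarAlgebra F]

lemma rw_trivial0 (h : (1 : E) = 0) (N : ℕ) :
    RW (N := N) 0 (fun _ => (0 : E)) (0 : E) := by
  have : ∀ x : E, x = 0 := fun x => by rw [← mul_one x, h, mul_zero]
  refine ⟨fun _ => by simp, by simp, ⟨0, by simp⟩, fun _ => by simp, fun _ _ _ => by simp, ?_, ?_⟩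
  · rw [this (_ - 1)]
    simp
  · simp

theorem t_PBX (hB3 : S_B3) (hIT : S_IT) (hLAB : S_LAB) (hCOV : S_COV) (hFIN : S_FINX) : S_PBX := by
  intro n N hn
  obtain ⟨R3, n', hB⟩ := hB3 n N
  by_cases hn' : n' = 0
  · -- trivial algebra
    subst hn'
    refine ⟨R3, fun E _ V hV hVV => ?_⟩
    obtain ⟨C, k, r, hsb, -⟩ := hB E V hV hVV
    have h1 : (1 : E) = 0 := by
      have := hsb.one
      simpa using this.symm
    have h2 : ∀ x : E, x = 0 := fun x => by rw [← mul_one x, h1, mul_zero]
    refine ⟨fun _ => 0, 0, rw_trivial0 h1 N, fun x _ => ?_⟩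
    refine ⟨fun i => ?_, ?_, ?_⟩
    · simp
    · simp
    · simp
  obtain ⟨K, J, g, hg⟩ := hCOV n' (Nat.pos_of_ne_zero hn')
  refine ⟨(K + 1) * R3, fun E _ V hV hVV => ?_⟩
  let e : Fin (K + 1) × Fin R3 ≃ Fin ((K + 1) * R3) := finProdFinEquiv
  have hblock : ∀ l : Fin (K + 1), ∃ (C : Fin (N + 1) → E) (k : E) (r : Fin n' → E), SB 0 C k r ∧
      ∀ x, (∀ j, Cm x (V (e (l, j)))) → Cm x (SBf C k r) := by
    intro l
    refine hB E (fun j => V (e (l, j))) (fun j => hV _) (fun j k hjk => hVV _ _ ?_)
    intro hh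
    exact hjk (Prod.ext_iff.1 (e.injective hh)).2
  choose C k r hsb hx using hblock
  -- different blocks commute
  have hcm : ∀ l l', l ≠ l' → CmS (SBf (C l) (k l) (r l)) (SBf (C l') (k l') (r l')) := by
    intro l l' hl
    refine cms_derive (V := fun p : Fin R3 × (Unit ⊕ (Bool × Fin n)) => V (e (l, p.1)) p.2)
      (V' := fun p : Fin R3 × (Unit ⊕ (Bool × Fin n)) => V (e (l', p.1)) p.2) ?_ ?_ ?_
    · intro p p'
      refine hVV _ _ ?_ p.2 p'.2
      intro hh
      exact hl (Prod.ext_iff.1 (e.injective hh)).1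
    · intro x h
      exact hx l x fun j i => h (j, i)
    · intro x h
      exact hx l' x fun j i => h (j, i)
  have hms := fun l => ms_of_sb (hsb l)
  have hPos : ∀ l, Pos (1 - ∑ i, star (C l i) * C l i) := fun l => (hsb l).le
  choose d hd1 hd2 hd3 using fun l => exists_sqrt (hPos l)
  -- commutation facts
  have cc : ∀ l l', l ≠ l' → ∀ i i', C l i * C l' i' = C l' i' * C l i := fun l l' hl i i' =>
    (hcm l l' hl (some (.inl i)) (some (.inl i'))).1
  have cc' : ∀ l l', l ≠ l' → ∀ i i', C l i * star (C l' i') = star (C l' i') * C l i :=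
    fun l l' hl i i' => (hcm l l' hl (some (.inl i)) (some (.inl i'))).2
  have c'c : ∀ l l', l ≠ l' → ∀ i i', star (C l i) * C l' i' = C l' i' * star (C l i) :=
    fun l l' hl i i' => (cc' l' l hl.symm i' i).symm
  have c'c' : ∀ l l', l ≠ l' → ∀ i i', star (C l i) * star (C l' i') =
      star (C l' i') * star (C l i) := by
    intro l l' hl i i'
    rw [← star_mul, ← star_mul, cc l l' hl]
  -- an element commuting with `C l i` and adjoints commutes with `d l`
  have hdx : ∀ l x, (∀ i, x * C l i = C l i * x) → (∀ i, x * star (C l i) = star (C l i) * x) →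
      x * d l = d l * x := by
    intro l x h1 h2
    apply hd3
    rw [mul_sub, sub_mul, mul_one, one_mul, Finset.mul_sum, Finset.sum_mul]
    congr 1
    refine Finset.sum_congr rfl fun i _ => ?_
    rw [← mul_assoc, h2, mul_assoc, h1, mul_assoc]
  have hdP : ∀ l l' i j, d l * (star (C l' i) * C l' j) = (star (C l' i) * C l' j) * d l := by
    intro l l' i j
    by_cases hl : l = l'
    · subst hl
      refine (hd3 l _ ?_).symm
      have h3 := (hms l).1.sum
      have h4 : (star (C l i) * C l j) * (∑ i, star (C l i) * C l i) =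
          (∑ i, star (C l i) * C l i) * (star (C l i) * C l j) := by
        rw [← (hms l).1.mul i j j]
        rw [Finset.mul_sum, Finset.sum_eq_single j]
        · intro m _ hm
          exact (hms l).1.orth i j m m hm.symm
        · intro hh
          exact absurd (Finset.mem_univ _) hh
      rw [mul_sub, sub_mul, mul_one, one_mul, h4]
    · have h1 : ∀ x ∈ ({C l' j, star (C l' i)} : Set E), x * d l = d l * x := by
        rintro x (rfl | rfl)
        · exact hdx l _ (fun m => cc l' l (Ne.symm hl) _ _) (fun m => cc' l' l (Ne.symm hl) _ _)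
        · exact hdx l _ (fun m => c'c l' l (Ne.symm hl) _ _) (fun m => c'c' l' l (Ne.symm hl) _ _)
      rw [mul_assoc, h1 (C l' j) (.inl rfl), ← mul_assoc, ← mul_assoc,
        h1 (star (C l' i)) (.inr rfl)]
  have hdd : ∀ l l', d l * d l' = d l' * d l := by
    intro l l'
    apply hd3
    rw [mul_sub, sub_mul, mul_one, one_mul, Finset.mul_sum, Finset.sum_mul]
    congr 1
    exact Finset.sum_congr rfl fun i _ => hdP l l' i i
  have hPP : ∀ l l', l ≠ l' → ∀ i j i' j', (star (C l i) * C l j) * (star (C l' i') * C l' j') =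
      (star (C l' i') * C l' j') * (star (C l i) * C l j) := by
    intro l l' hl i j i' j'
    calc (star (C l i) * C l j) * (star (C l' i') * C l' j')
        = star (C l i) * (C l j * star (C l' i')) * C l' j' := by simp only [mul_assoc]
      _ = (star (C l i) * star (C l' i')) * (C l j * C l' j') := by
          rw [cc' l l' hl]; simp only [mul_assoc]
      _ = star (C l' i') * (star (C l i) * C l' j') * C l j := by
          rw [c'c' l l' hl, cc l l' hl]; simp only [mul_assoc]
      _ = _ := by rw [c'c l l' hl]; simp only [mul_assoc]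
  obtain ⟨θ, ψ, hθ, hθ2, hθ3, hθ4⟩ := hIT N K E (fun l => ∑ i, star (C l i) * C l i)
    (fun l i j => star (C l i) * C l j) d (fun l => (hms l).1) hPP hd1 (fun l => hd2 l) hdd
    hdP
  obtain ⟨hψk, hθk⟩ := hθ4 (k 0) (hms 0).2.1 (hms 0).2.2
  -- label trick
  have hdk : ∀ l, d l * k l = 0 := by
    intro l
    have h1 : d l * d l * k l = 0 := by
      rw [hd2, sub_mul, one_mul, (hms l).2.2, sub_self]
    have h2 : star (d l * k l) * (d l * k l) = 0 := by
      rw [star_mul, hd1, mul_assoc, ← mul_assoc (d l) (d l), h1, mul_zero]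
    exact (CStarRing.star_mul_self_eq_zero_iff _).1 h2
  have hone : ∀ l, ∑ i, star (r l i) * (k l * k l) * r l i = 1 := fun l => (hsb l).one
  have hx2 : ∀ l x, Cm x (SBf (C l) (k l) (r l)) → Cm x (LBf (d l) (k l) (r l)) := by
    intro l x h
    have h1 : x * d l = d l * x := hdx l x (fun i => (h (some (.inl i))).1)
      (fun i => (h (some (.inl i))).2)
    rintro (_ | _ | i)
    · refine ⟨h1, ?_⟩
      change x * star (d l) = star (d l) * x
      rw [hd1]
      exact h1
    · exact h none
    · exact h (some (.inr i))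
  have hLcm : ∀ l l', l ≠ l' → CmS (LBf (d l) (k l) (r l)) (LBf (d l') (k l') (r l')) := by
    intro l l' hl
    exact cms_derive (hcm l l' hl) (hx2 l) (hx2 l')
  obtain ⟨T, T', hT, hTD, hTx⟩ := hLAB n' K J g hg E d k r hd1 (fun l => (hsb l).ksa) hdk hone
    hLcm
  have hψT : ψ 0 0 * T = T := by rw [hT, ← mul_assoc, hψk]
  have hθT : θ * T = T := by rw [hT, ← mul_assoc, hθk]
  have h4 : (0 : ℝ) < ((4 : ℝ) ^ K)⁻¹ := by positivity
  have hT2 : Pos (star T * T - ((((4 : ℝ) ^ K)⁻¹ : ℝ) : ℂ) • (1 - θ)) := by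
    have h5 := hθ2.smul h4.le
    have h6 := hTD.add h5
    have h7 : ((((4 : ℝ) ^ K)⁻¹ : ℝ) : ℂ) * (4 : ℂ) ^ K = 1 := by
      push_cast
      exact inv_mul_cancel₀ (pow_ne_zero _ (by norm_num))
    rw [smul_sub, smul_smul, h7, one_smul] at h6
    convert h6 using 1
    abel
  obtain ⟨c, s, hrw, hc⟩ := hFIN N E θ ψ T _ h4 hθ hT2 hψT hθT
  refine ⟨c, s, hrw, fun x hxV => ?_⟩
  have hxl : ∀ l, Cm x (SBf (C l) (k l) (r l)) := fun l => hx l x fun j => hxV _
  refine hc x (hθ3 x fun l i j => ?_) (hTx x fun l => hx2 l x (hxl l))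
  have h1 := hxl l (some (.inl i))
  have h2 := hxl l (some (.inl j))
  change x * C l i = C l i * x ∧ x * star (C l i) = star (C l i) * x at h1
  change x * C l j = C l j * x ∧ x * star (C l j) = star (C l j) * x at h2
  rw [← mul_assoc, h1.2, mul_assoc, h2.1, mul_assoc]

theorem t_MAINX (hAL : S_AL) (hF1 : S_F1) (hF2 : S_F2) (hCORE : S_CORE)
    (hPB : S_PBX) : S_MAINX := by
  intro A Q _ _ _ ω q hq hω hχ
  have key : ∀ N : ℕ, ∃ (c : Fin (N + 1) → Q) (s : Q), RW 0 c s ∧
      (∀ i, c i ∈ Cen q) ∧ s ∈ Cen q := by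
    intro N
    obtain ⟨n, V, hV, hVc⟩ := hF1 A Q ω q hq hχ
    obtain ⟨T, hT, hTb, hTc, hTm⟩ := hF2 A Q ω q hq hω n V hV hVc
    by_cases h1 : (1 : Q) = 0
    · exact ⟨fun _ => 0, 0, rw_trivial0 h1 N, fun _ => zero_mem _, zero_mem _⟩
    obtain ⟨n', W, hW, -, hWz, hWm⟩ := hCORE n Q h1 T hT hTb hTc
    have hn' : 0 < n' := by
      rcases Nat.eq_zero_or_pos n' with h | h
      · exfalso
        subst h
        have := (hWz 0).full
        simp only [Finset.univ_eq_empty, Finset.sum_empty] at this
        exact h1 this.symm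
      · exact h
    obtain ⟨R, hR⟩ := hPB n' N hn'
    obtain ⟨c, s, hrw, hx⟩ := hR Q (fun j => W j) (fun j => hWz j)
      (fun j k hjk => hW _ _ fun hh => hjk (Fin.ext hh))
    have hclosed : IsClosed (Cen q : Set Q) := by
      have : (Cen q : Set Q) = ⋂ y ∈ (Set.range fun a : A => q (cst a)) ∪
          star (Set.range fun a : A => q (cst a)), {x | y * x = x * y} := by
        ext x
        simp only [Cen, SetLike.mem_coe, StarSubalgebra.mem_centralizer_iff, Set.mem_iInter,
          Set.mem_ofPred_eq, Set.mem_union]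
        constructor
        · rintro h y (hy | hy)
          · exact (h y hy).1
          · have := (h (star y) hy).2
            rwa [star_star] at this
        · intro h y hy
          exact ⟨h y (.inl hy), h (star y) (.inr (by simpa using hy))⟩
      rw [this]
      refine isClosed_biInter fun y _ => isClosed_eq (by fun_prop) (by fun_prop)
    have hsub : Al T Set.univ ≤ Cen q :=
      (hAL Q _ T).2.2.2.1 Set.univ (Cen q) hclosed fun j _ g => hTm j g
    -- elements of `A` commute with the `W j g`
    have hcomm : ∀ y ∈ (Set.range fun a : A => q (cst a)) ∪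
        star (Set.range fun a : A => q (cst a)), ∀ z ∈ Cen q, y * z = z * y := by
      rintro y hy z hz
      have hz' := StarSubalgebra.mem_centralizer_iff ℂ |>.1 hz
      rcases hy with hy | hy
      · exact (hz' y hy).1
      · have := (hz' (star y) hy).2
        rwa [star_star] at this
    have hCm : ∀ y ∈ (Set.range fun a : A => q (cst a)) ∪
        star (Set.range fun a : A => q (cst a)), ∀ j : Fin R, Cm y (W j) := by
      intro y hy j g
      exact ⟨hcomm y hy _ (hsub (hWm j g)), hcomm y hy _ (star_mem (hsub (hWm j g)))⟩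
    have hy : ∀ y ∈ Set.range fun a : A => q (cst a), star y ∈ (Set.range fun a : A => q (cst a)) ∪
        star (Set.range fun a : A => q (cst a)) := by
      intro y hy
      right
      simpa using hy
    refine ⟨c, s, hrw, fun i => ?_, ?_⟩
    · refine StarSubalgebra.mem_centralizer_iff ℂ |>.2 fun y hy' => ?_
      exact ⟨((hx y (hCm y (.inl hy'))).1 i).1, ((hx _ (hCm _ (hy y hy'))).1 i).1⟩
    · refine StarSubalgebra.mem_centralizer_iff ℂ |>.2 fun y hy' => ?_
      exact ⟨(hx y (hCm y (.inl hy'))).2.1, (hx _ (hCm _ (hy y hy'))).2.1⟩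
  exact key

/-- order zero map of exact Rørdam–Winter elements -/
lemma rv_of_rw {N : ℕ} {c : Fin (N + 1) → E} {s : E} (h : RW 0 c s) :
    RV (fun i j => star (c i) * c j) s where
  st := fun i j => by rw [star_mul, star_star]
  mul := fun i j l => by
    have e1 : (∑ m, star (c m) * c m) * (star (c i) * c l) = star (c i) * (c 0 * c 0) * c l := by
      rw [Finset.sum_mul, Finset.sum_eq_single i]
      · rw [← h.diag i]; simp only [mul_assoc]
      · intro m _ hm
        rw [mul_assoc, ← mul_assoc (c m), h.orth m i hm, zero_mul, mul_zero]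
      · intro hh
        exact absurd (Finset.mem_univ i) hh
    rw [e1, ← h.diag j]
    simp only [mul_assoc]
  orth := fun i j k l hjk => by
    rw [mul_assoc, ← mul_assoc (c j), h.orth j k hjk, zero_mul, mul_zero]
  pos := fun i => ⟨c i, rfl⟩
  vv := by
    have h1 : star s * s + ∑ i, star (c i) * c i - 1 = 0 := norm_le_zero_iff.1 h.one
    rw [sub_eq_zero] at h1
    rw [← h1]
    abel
  ve := by
    rw [h.pos.sa, mul_assoc, h.fix, h.fix]

end Pool.Agent.N299.DT
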