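import Mathlib
import Pool.Agent.N299.Base

/-!
Project DT (MP_fb67b4_an): central sequence algebras without characters.  Definitions.
Everything lives in `Type`.
-/

set_option autoImplicit false

open scoped BoundedContinuousFunction Topology
open Filter

noncomputable section

namespace Pool.Agent.N299.DT

section defs

variable {E : Type} [CStarAlgebra E]

/-- algebraic simplicity (non-zero, and every non-zero element generates the unit ideal) -/
def Sim (S : Type) [CStarAlgebra S] : Prop :=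
  (1 : S) ≠ 0 ∧ ∀ x : S, x ≠ 0 → ∃ (k : ℕ) (a b : Fin k → S), ∑ i, a i * x * b i = 1

/-- the family `X` generates `E` as an ideal -/
def Cert {ι : Type} (X : ι → E) : Prop :=
  ∃ (k : ℕ) (t : Fin k → ι) (a b : Fin k → E), ∑ i, a i * X (t i) * b i = 1

/-- `x` commutes with the elements `V i` and their adjoints -/
def Cm {ι : Type} (x : E) (V : ι → E) : Prop :=
  ∀ i, x * V i = V i * x ∧ x * star (V i) = star (V i) * x

/-- the families `V`, `W` commute (with adjoints) -/
def CmS {ι κ : Type} (V : ι → E) (W : κ → E) : Prop :=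
  ∀ i j, V i * W j = W j * V i ∧ V i * star (W j) = star (W j) * V i

/-- every element commuting with `V` commutes with `W` -/
def Der {ι κ : Type} (V : ι → E) (W : κ → E) : Prop := ∀ x, Cm x V → Cm x W

/-- a sequence of commuting tuples -/
def CS {G : Type} (T : ℕ → G → E) : Prop := ∀ j k, j ≠ k → CmS (T j) (T k)

/-- closed star algebra generated by the tuples with index in `J` -/
def Al {G : Type} (T : ℕ → G → E) (J : Set ℕ) : StarSubalgebra ℂ E :=
  (StarAlgebra.adjoin ℂ {x | ∃ j ∈ J, ∃ g, x = T j g}).topologicalClosure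

/-- `1` is a sum of commutators with coefficients -/
def Com {n : ℕ} (V : Fin 4 × Fin n → E) : Prop :=
  ∑ i, V (2, i) * (V (0, i) * V (1, i) - V (1, i) * V (0, i)) * V (3, i) = 1

/-- real and imaginary parts of the elements `x_i = V (0, i)` -/
def hp {n : ℕ} (V : Fin 4 × Fin n → E) (i : Fin n × Bool) : E :=
  if i.2 then (1 / 2 : ℂ) • (V (0, i.1) + star (V (0, i.1)))
  else (1 / 2 : ℂ) • ((-Complex.I) • V (0, i.1) + star ((-Complex.I) • V (0, i.1)))

/-- the element `g = ∑_{l ≠ l' ≤ 2n} ∑_i h_i^{(l)} h_i^{(l')}` -/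
def gel {n : ℕ} (T : ℕ → Fin 4 × Fin n → E) : E :=
  ∑ l : Fin (2 * n + 1), ∑ l' : Fin (2 * n + 1),
    if l = l' then 0 else ∑ i, hp (T l) i * hp (T l') i

/-- index set of a cell tuple: `inl c` is the cell `c`; `inr (s, i, c, j)` are the left (`s = false`)
and right (`s = true`) coefficients of the window `i` -/
abbrev CI (m k : ℕ) : Type := Fin m ⊕ (Bool × Fin m × Fin m × Fin k)

/-- cell tuple: cells are self-adjoint, non-neighbouring cells are orthogonal, the cells outside of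
each window `{i, …, i + 3}` generate the unit ideal -/
structure CellT (m k : ℕ) (V : CI m k → E) : Prop where
  pos : 0 < m
  sa : ∀ c, star (V (.inl c)) = V (.inl c)
  orth : ∀ c c' : Fin m, (c : ℕ) + 2 ≤ c' → V (.inl c) * V (.inl c') = 0
  full : ∀ i : Fin m, (∑ c : Fin m, if (c : ℕ) < i ∨ (i : ℕ) + 4 ≤ c then
    ∑ j, V (.inr (false, i, c, j)) * V (.inl c) * V (.inr (true, i, c, j)) else 0) = 1

/-- orthogonal pair with certificate: `p = V (0, _)`, `q = V (1, _)` and
`∑ a_j q y_j p b_j = 1` with `a_j = V (2, j)`, `y_j = V (3, j)`, `b_j = V (4, j)`.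
Index type: `Bool ⊕ Fin 3 × Fin K`, `inl false = p`, `inl true = q`. -/
structure PQT (K : ℕ) (V : Bool ⊕ (Fin 3 × Fin K) → E) : Prop where
  psa : star (V (.inl false)) = V (.inl false)
  qsa : star (V (.inl true)) = V (.inl true)
  orth : V (.inl false) * V (.inl true) = 0
  full : ∑ j, V (.inr (0, j)) * V (.inl true) * V (.inr (1, j)) * V (.inl false) *
    V (.inr (2, j)) = 1

/-- square zero element with certificate: `z = V (inl ())`, `∑ α_i z β_i = 1`,
`α_i = V (inr (false, i))`, `β_i = V (inr (true, i))` -/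
structure ZT (n : ℕ) (V : Unit ⊕ (Bool × Fin n) → E) : Prop where
  sq : V (.inl ()) * V (.inl ()) = 0
  full : ∑ i, V (.inr (false, i)) * V (.inl ()) * V (.inr (true, i)) = 1

/-- (super)block: index type `I` with base point `o` -/
structure SB {I κ : Type} [Fintype I] [Fintype κ] (o : I) (C : I → E) (k : E) (r : κ → E) :
    Prop where
  sa : star (C o) = C o
  diag : ∀ i, C i * star (C i) = C o * C o
  orth : ∀ i j, i ≠ j → C i * star (C j) = 0
  le : Pos (1 - ∑ i, star (C i) * C i)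
  ksa : star k = k
  Ck : C o * k = k
  one : ∑ t, star (r t) * (k * k) * r t = 1

/-- all elements of a block, as a family -/
def SBf {I κ : Type} (C : I → E) (k : E) (r : κ → E) : Option (I ⊕ κ) → E
  | none => k
  | some (.inl i) => C i
  | some (.inr t) => r t

/-- matrix system (order zero map `M_{N+1} → E`): `P i j` the images of the matrix units, `a` the
image of `1` -/
structure MS {N : ℕ} (a : E) (P : Fin (N + 1) → Fin (N + 1) → E) : Prop where
  st : ∀ i j, star (P i j) = P j i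
  mul : ∀ i j l, P i j * P j l = a * P i l
  orth : ∀ i j k l, j ≠ k → P i j * P k l = 0
  sum : ∑ i, P i i = a
  pos : Pos a
  le : Pos (1 - a)

/-- Rørdam–Winter relations with error `ε` in the last relation -/
structure RW {N : ℕ} (ε : ℝ) (c : Fin (N + 1) → E) (s : E) : Prop where
  nc : ∀ i, ‖c i‖ ≤ 1
  ns : ‖s‖ ≤ 1
  pos : Pos (c 0)
  diag : ∀ i, c i * star (c i) = c 0 * c 0
  orth : ∀ i j, i ≠ j → c i * star (c j) = 0
  one : ‖star s * s + ∑ i, star (c i) * c i - 1‖ ≤ ε
  fix : c 0 * s = s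

end defs

/-- Rørdam–Winter / Toms–Winter criterion for `𝒵`-stability (same as `H215EZ.ZSt`, in `Type`) -/
def ZSt (A : Type) [CStarAlgebra A] : Prop :=
  ∀ (n : ℕ) (F : Finset A) (ε : ℝ), 0 < ε → ∃ (c : Fin (n + 1) → A) (s : A),
    (∀ i, ‖c i‖ ≤ 1) ∧ ‖s‖ ≤ 1 ∧
    (∃ d : A, c 0 = star d * d) ∧
    (∀ i, ‖c i * star (c i) - c 0 * c 0‖ ≤ ε) ∧
    (∀ i j, i ≠ j → ‖c i * star (c j)‖ ≤ ε) ∧
    ‖star s * s + ∑ i, star (c i) * c i - 1‖ ≤ ε ∧ ‖c 0 * s - s‖ ≤ ε ∧
    (∀ i, ∀ a ∈ F, ‖c i * a - a * c i‖ ≤ ε) ∧ (∀ a ∈ F, ‖s * a - a * s‖ ≤ ε)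

/-- constant sequence -/
def cst {A : Type} [CStarAlgebra A] (a : A) : ℕ →ᵇ A := BoundedContinuousFunction.const ℕ a

/-- `q : ℓ^∞(ℕ, A) → Q` is the ultrapower of `A` along `ω` -/
structure IsUP (A Q : Type) [CStarAlgebra A] [CStarAlgebra Q] (ω : Ultrafilter ℕ)
    (q : (ℕ →ᵇ A) →⋆ₐ[ℂ] Q) : Prop where
  surj : Function.Surjective q
  ker : ∀ x : ℕ →ᵇ A, q x = 0 ↔ Tendsto (fun n => ‖x n‖) ω (𝓝 0)

/-- the relative commutant `Q ∩ A'` -/
def Cen {A Q : Type} [CStarAlgebra A] [CStarAlgebra Q] (q : (ℕ →ᵇ A) →⋆ₐ[ℂ] Q) :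
    StarSubalgebra ℂ Q :=
  StarSubalgebra.centralizer ℂ (Set.range fun a : A => q (cst a))

end Pool.Agent.N299.DT
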