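import Pool.Agent.N299.DT.Asm3
import Pool.Agent.W658.ZS.Nuc5
import Pool.Agent.H308R2.ZS.TRWAZ

/-!
Project DT: the Jiang–Su algebra in the central sequence algebra, `A ⊗ Z ≅ A`, infinite tensor
powers.
-/

set_option autoImplicit false

open scoped BoundedContinuousFunction Topology TensorProduct Matrix.Norms.L2Operator
open Filter

noncomputable section

namespace Pool.Agent.N299.DT

open Pool.Agent.H308R2.ZS (dimDrop MM Vals Ix IsJiangSu S_PHM)
open Pool.Agent.H188R3 (IsMinTensor IsCStarNormed prodMap)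

variable {E F : Type} [CStarAlgebra E] [CStarAlgebra F]

lemma isClosed_cen {A Q : Type} [CStarAlgebra A] [CStarAlgebra Q] (q : (ℕ →ᵇ A) →⋆ₐ[ℂ] Q) :
    IsClosed (Cen q : Set Q) := by
  have : (Cen q : Set Q) = ⋂ y ∈ (Set.range fun a : A => q (cst a)) ∪
      star (Set.range fun a : A => q (cst a)), {x | y * x = x * y} := by
    ext x
    simp only [Cen, SetLike.mem_coe, StarSubalgebra.mem_centralizer_iff, Set.mem_iInter,
      Set.mem_ofPred_eq, Set.mem_union]
    constructor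
    · rintro h y (hy | hy)
      · exact (h y hy).1
      · have := (h (star y) hy).2
        rwa [star_star] at this
    · intro h y hy
      exact ⟨h y (.inl hy), h (star y) (.inr (by simpa using hy))⟩
  rw [this]
  refine isClosed_biInter fun y _ => isClosed_eq (by fun_prop) (by fun_prop)

/-- the Jiang–Su algebra embeds into the central sequence algebra -/
def S_EMB : Prop := ∀ (A Q : Type) [CStarAlgebra A] [CStarAlgebra Q]
  [TopologicalSpace.SeparableSpace A] (ω : Ultrafilter ℕ)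
  (q : (ℕ →ᵇ A) →⋆ₐ[ℂ] Q), IsUP A Q ω q → (ω : Filter ℕ) ≤ atTop →
  (∀ _ : Cen q →⋆ₐ[ℂ] ℂ, False) → ∀ (Z : Type) [CStarAlgebra Z] (τ : Z →ₗ[ℂ] ℂ),
  IsJiangSu Z τ → ∃ θ : Z →⋆ₐ[ℂ] Q, ∀ x, θ x ∈ Cen q

theorem t_EMB (hPHM : S_PHM) (hM : S_MAINX) (hU : S_UNIV) (hD : S_DIAG) : S_EMB := by
  intro A Q _ _ _ ω q hq hω hχ Z _ τ hZ
  have h1 : ∀ N : ℕ, ∃ σ : dimDrop N →⋆ₐ[ℂ] Q, ∀ x, σ x ∈ Cen q := by
    intro N
    obtain ⟨c, s, hrw, hc, hs⟩ := hM A Q ω q hq hω hχ N
    obtain ⟨φ, k, v, hv⟩ := hPHM N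
    obtain ⟨σ, -, -, h3⟩ := hU N Q _ s (rv_of_rw hrw) φ k v hv
    exact ⟨σ, h3 (Cen q) (isClosed_cen q) (fun i j => mul_mem (star_mem (hc i)) (hc j)) hs⟩
  obtain ⟨n, D, hmono, -, hcl, hiso, hdense⟩ := hZ.lim
  have : TopologicalSpace.SeparableSpace Z := Pool.Agent.H308R2.ZS.t_SEPZ Z τ hZ
  refine hD A Q ω q hq hω Z D hmono hdense fun k => ?_
  obtain ⟨Θ⟩ := hiso k
  obtain ⟨σ, hσ⟩ := h1 (n k)
  have := hcl k
  refine ⟨σ.comp (Θ.symm : D k →⋆ₐ[ℂ] dimDrop (n k)), fun x => hσ _, fun x => ?_⟩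
  exact norm_hom_le (E := D k) (σ.comp (Θ.symm : D k →⋆ₐ[ℂ] dimDrop (n k))) x

/-- the zero homomorphism into the zero algebra -/
def zeroHom (Z A : Type) [CStarAlgebra Z] [CStarAlgebra A] (h : Subsingleton A) :
    Z →⋆ₐ[ℂ] A where
  toFun := fun _ => 0
  map_one' := Subsingleton.elim _ _
  map_mul' := fun _ _ => Subsingleton.elim _ _
  map_zero' := rfl
  map_add' := fun _ _ => Subsingleton.elim _ _
  commutes' := fun _ => Subsingleton.elim _ _
  map_star' := fun _ => Subsingleton.elim _ _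

lemma absb_trivial {A Z : Type} [CStarAlgebra A] [CStarAlgebra Z] (h : Subsingleton A) :
    Absb A Z := by
  have hs : Subsingleton (A ⊗[ℂ] Z) := by
    refine ⟨fun x y => ?_⟩
    have h0 : ∀ x : A ⊗[ℂ] Z, x = 0 := by
      intro x
      induction x using TensorProduct.induction_on with
      | zero => rfl
      | add u v hu hv => rw [hu, hv, add_zero]
      | tmul a b => rw [Subsingleton.elim a 0, TensorProduct.zero_tmul]
    rw [h0 x, h0 y]
  refine ⟨A, inferInstance, StarAlgHom.id ℂ A, zeroHom Z A h, ⟨⟨fun _ _ => Subsingleton.elim _ _,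
    fun x y _ => Subsingleton.elim x y⟩, ?_, ?_⟩, ⟨StarAlgEquiv.refl ℂ A⟩⟩
  · intro y
    rw [Subsingleton.elim y (prodMap (StarAlgHom.id ℂ A) (zeroHom Z A h) 0)]
    exact subset_closure ⟨0, rfl⟩
  · intro D _ f' g' _ x
    rw [Subsingleton.elim (prodMap (StarAlgHom.id ℂ A) (zeroHom Z A h) x) 0, norm_zero]
    exact norm_nonneg _

/-- `A ⊗ Z ≅ A` -/
def S_ABSJ : Prop := ∀ (A Q : Type) [CStarAlgebra A] [CStarAlgebra Q]
  [TopologicalSpace.SeparableSpace A] (ω : Ultrafilter ℕ)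
  (q : (ℕ →ᵇ A) →⋆ₐ[ℂ] Q), IsUP A Q ω q → (ω : Filter ℕ) ≤ atTop →
  (∀ _ : Cen q →⋆ₐ[ℂ] ℂ, False) → ∀ (Z : Type) [CStarAlgebra Z] (τ : Z →ₗ[ℂ] ℂ),
  IsJiangSu Z τ → HalfFlip Z → Absb A Z

theorem t_ABSJ (hE : S_EMB) (hA : S_ABS) : S_ABSJ := by
  intro A Q _ _ _ ω q hq hω hχ Z _ τ hZ hfl
  obtain ⟨θ, hθ⟩ := hE A Q ω q hq hω hχ Z τ hZ
  rcases subsingleton_or_nontrivial A with h | h
  · exact absb_trivial h
  have : TopologicalSpace.SeparableSpace Z := Pool.Agent.H308R2.ZS.t_SEPZ Z τ hZ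
  exact hA A Q Z ω q hq hω h
    (Pool.Agent.W658.ZS.isSimpleRing_of (Pool.Agent.W658.ZS.simple_jiangSu Z τ hZ))
    (Pool.Agent.W658.ZS.nuclear_jiangSu Z τ hZ) hfl θ hθ

/-! ### infinite tensor powers -/

/-- `E` is generated by a sequence of commuting copies of `D` -/
structure IsTP (D E : Type) [CStarAlgebra D] [CStarAlgebra E] (φ : ℕ → D →⋆ₐ[ℂ] E) : Prop where
  comm : ∀ j k, j ≠ k → ∀ x y, φ j x * φ k y = φ k y * φ j x
  gen : (StarAlgebra.adjoin ℂ {x | ∃ j d, x = φ j d}).topologicalClosure = ⊤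

lemma norm_apply_le_of_hom {D E : Type} [CStarAlgebra D] [CStarAlgebra E] (φ : D →⋆ₐ[ℂ] E)
    (x : D) : ‖φ x‖ ≤ ‖x‖ := norm_hom_le φ x

/-- the sequence `(φ_k(x))_k` -/
def seqOf {D E : Type} [CStarAlgebra D] [CStarAlgebra E] (φ : ℕ → D →⋆ₐ[ℂ] E) (x : D) :
    ℕ →ᵇ E :=
  BoundedContinuousFunction.ofNormedAddCommGroup (fun k => φ k x) continuous_of_discreteTopology
    ‖x‖ fun k => norm_hom_le (φ k) x

lemma seqOf_apply {D E : Type} [CStarAlgebra D] [CStarAlgebra E] (φ : ℕ → D →⋆ₐ[ℂ] E) (x : D)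
    (k : ℕ) : seqOf φ x k = φ k x := rfl

/-- the *-homomorphism `x ↦ (φ_k(x))_k` -/
def seqHom {D E : Type} [CStarAlgebra D] [CStarAlgebra E] (φ : ℕ → D →⋆ₐ[ℂ] E) :
    D →⋆ₐ[ℂ] (ℕ →ᵇ E) where
  toFun := seqOf φ
  map_one' := by ext k; simp [seqOf_apply]
  map_mul' := fun x y => by ext k; simp [seqOf_apply]
  map_zero' := by ext k; simp [seqOf_apply]
  map_add' := fun x y => by ext k; simp [seqOf_apply]
  commutes' := fun r => by
    ext k
    simp [seqOf_apply, Algebra.algebraMap_eq_smul_one]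
  map_star' := fun x => by ext k; simp [seqOf_apply, map_star]

lemma tail_central {D E Q : Type} [CStarAlgebra D] [CStarAlgebra E] [CStarAlgebra Q]
    {φ : ℕ → D →⋆ₐ[ℂ] E} (hφ : IsTP D E φ) {ω : Ultrafilter ℕ} {q : (ℕ →ᵇ E) →⋆ₐ[ℂ] Q}
    (hq : IsUP E Q ω q) (hω : (ω : Filter ℕ) ≤ atTop) (x : D) : q (seqHom φ x) ∈ Cen q := by
  -- the elements `a` whose constant sequence commutes with all `q (seqHom φ x)`
  let B : StarSubalgebra ℂ Q := StarSubalgebra.centralizer ℂ (Set.range fun x => q (seqHom φ x))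
  have hB : IsClosed (B : Set Q) := by
    have : (B : Set Q) = ⋂ y ∈ (Set.range fun x => q (seqHom φ x)) ∪
        star (Set.range fun x => q (seqHom φ x)), {x | y * x = x * y} := by
      ext x
      simp only [B, SetLike.mem_coe, StarSubalgebra.mem_centralizer_iff, Set.mem_iInter,
        Set.mem_ofPred_eq, Set.mem_union]
      constructor
      · rintro h y (hy | hy)
        · exact (h y hy).1
        · have := (h (star y) hy).2
          rwa [star_star] at this
      · intro h y hy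
        exact ⟨h y (.inl hy), h (star y) (.inr (by simpa using hy))⟩
    rw [this]
    refine isClosed_biInter fun y _ => isClosed_eq (by fun_prop) (by fun_prop)
  let cstHom : E →⋆ₐ[ℂ] (ℕ →ᵇ E) :=
    { toFun := cst
      map_one' := rfl
      map_mul' := fun x y => rfl
      map_zero' := rfl
      map_add' := fun x y => rfl
      commutes' := fun r => by
        ext k
        simp [cst, Algebra.algebraMap_eq_smul_one]
      map_star' := fun x => rfl }
  let C : StarSubalgebra ℂ E := B.comap (q.comp cstHom)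
  have hC : IsClosed (C : Set E) := hB.preimage (continuous_hom (q.comp cstHom))
  have hker : ∀ j d x, q (cst (φ j d)) * q (seqHom φ x) = q (seqHom φ x) * q (cst (φ j d)) := by
    intro j d x
    rw [← map_mul, ← map_mul, ← sub_eq_zero, ← map_sub, hq.ker]
    refine tendsto_const_nhds.congr' ?_
    have : ∀ᶠ k in (ω : Filter ℕ), j < k := hω (eventually_gt_atTop j)
    filter_upwards [this] with k hk
    have h1 := hφ.comm j k (Nat.ne_of_lt hk) d x
    show 0 = ‖φ j d * φ k x - φ k x * φ j d‖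
    rw [h1, sub_self, norm_zero]
  have hgen : ∀ j d, φ j d ∈ C := by
    intro j d
    show q (cst (φ j d)) ∈ B
    refine StarSubalgebra.mem_centralizer_iff ℂ |>.2 ?_
    rintro _ ⟨y, rfl⟩
    refine ⟨(hker j d y).symm, ?_⟩
    simp only
    rw [← map_star, ← map_star]
    exact (hker j d (star y)).symm
  have htop : C = ⊤ := by
    rw [eq_top_iff, ← hφ.gen]
    refine StarSubalgebra.topologicalClosure_minimal ?_ hC
    refine StarAlgebra.adjoin_le ?_
    rintro _ ⟨j, d, rfl⟩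
    exact hgen j d
  refine StarSubalgebra.mem_centralizer_iff ℂ |>.2 ?_
  rintro _ ⟨a, rfl⟩
  have ha : a ∈ C := htop ▸ StarSubalgebra.mem_top
  have ha' : q (cst a) ∈ B := ha
  have h1 := StarSubalgebra.mem_centralizer_iff ℂ |>.1 ha' _ ⟨x, rfl⟩
  have h2 := StarSubalgebra.mem_centralizer_iff ℂ |>.1 (star_mem ha') _ ⟨x, rfl⟩
  exact ⟨h1.1.symm, h2.1.symm⟩

/-- no character on `D`, so no character on the central sequence algebra of `E` -/
lemma no_char_of_tp {D E Q : Type} [CStarAlgebra D] [CStarAlgebra E] [CStarAlgebra Q]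
    {φ : ℕ → D →⋆ₐ[ℂ] E} (hφ : IsTP D E φ) {ω : Ultrafilter ℕ} {q : (ℕ →ᵇ E) →⋆ₐ[ℂ] Q}
    (hq : IsUP E Q ω q) (hω : (ω : Filter ℕ) ≤ atTop) (hD : ∀ _ : D →⋆ₐ[ℂ] ℂ, False) :
    ∀ _ : Cen q →⋆ₐ[ℂ] ℂ, False := by
  intro χ
  exact hD (χ.comp ((q.comp (seqHom φ)).codRestrict (Cen q) fun x => tail_central hφ hq hω x))

lemma sep_closure' {A : Type} [NormedRing A] {T : Set A} (hT : TopologicalSpace.IsSeparable T) :
    TopologicalSpace.IsSeparable (Submonoid.closure T : Set A) := by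
  have h1 : (Submonoid.closure T : Set A) ⊆ ⋃ n : ℕ,
      (fun v : Fin n → A => (List.ofFn v).prod) '' (Set.univ.pi fun _ => T) := by
    intro x hx
    obtain ⟨l, hl, rfl⟩ := Submonoid.exists_list_of_mem_closure hx
    refine Set.mem_iUnion.2 ⟨l.length, l.get, ?_, ?_⟩
    · intro i _
      exact hl _ (List.get_mem l i)
    · simp
  refine TopologicalSpace.IsSeparable.mono (TopologicalSpace.IsSeparable.iUnion fun n => ?_) h1
  refine TopologicalSpace.IsSeparable.image
    (TopologicalSpace.IsSeparable.univ_pi fun _ => hT) ?_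
  have h2 : (fun v : Fin n → A => (List.ofFn v).prod) =
      fun v => ((List.finRange n).map v).prod := by
    funext v
    rw [List.ofFn_eq_map]
  rw [h2]
  exact continuous_list_prod _ fun i _ => continuous_apply i

/-- `E` is separable if `D` is -/
lemma separable_of_tp {D E : Type} [CStarAlgebra D] [CStarAlgebra E]
    [TopologicalSpace.SeparableSpace D] {φ : ℕ → D →⋆ₐ[ℂ] E} (hφ : IsTP D E φ) :
    TopologicalSpace.SeparableSpace E := by
  have h1 : TopologicalSpace.IsSeparable {x : E | ∃ j d, x = φ j d} := by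
    have : {x : E | ∃ j d, x = φ j d} = ⋃ j, Set.range (φ j) := by
      ext x
      simp only [Set.mem_ofPred_eq, Set.mem_iUnion, Set.mem_range]
      exact ⟨fun ⟨j, d, h⟩ => ⟨j, d, h.symm⟩, fun ⟨j, d, h⟩ => ⟨j, d, h.symm⟩⟩
    rw [this]
    exact TopologicalSpace.IsSeparable.iUnion fun j =>
      TopologicalSpace.isSeparable_range (continuous_hom (φ j))
  obtain ⟨S, hS⟩ : ∃ S : Set E, S = {x : E | ∃ j d, x = φ j d} := ⟨_, rfl⟩
  have hgen := hφ.gen
  rw [← hS] at h1 hgen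
  have hT : TopologicalSpace.IsSeparable (S ∪ star S) := by
    refine h1.union ?_
    have : star S = star '' S := by
      ext x
      simp
    rw [this]
    exact h1.image continuous_star
  have h2 : TopologicalSpace.IsSeparable (StarAlgebra.adjoin ℂ S : Set E) := by
    have h3 : (StarAlgebra.adjoin ℂ S : Set E) =
        (Submodule.span ℂ (Submonoid.closure (S ∪ star S) : Set E) : Set E) := by
      rw [← Algebra.adjoin_eq_span, ← StarAlgebra.adjoin_toSubalgebra]
      rfl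
    rw [h3]
    exact (sep_closure' hT).span
  have h3 : TopologicalSpace.IsSeparable (Set.univ : Set E) := by
    have h4 : (Set.univ : Set E) = closure (StarAlgebra.adjoin ℂ S : Set E) := by
      rw [← StarSubalgebra.topologicalClosure_coe, hgen]
      rfl
    rw [h4]
    exact h2.closure
  exact TopologicalSpace.isSeparable_univ_iff.1 h3

end Pool.Agent.N299.DT
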