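import Mathlib
import Pool.Agent.H188R3.TensorDefs

/-!
# Character-free central sequence algebras: the definitions used in the final statement

Ultrapowers and central sequence algebras, the Rørdam–Winter criterion for `𝒵`-stability, the
Jiang–Su algebra, approximately inner half flip, and absorption `A ⊗ Z ≅ A`.
-/

set_option autoImplicit false

open scoped BoundedContinuousFunction Topology Kronecker Matrix.Norms.L2Operator
open Filter

noncomputable section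

namespace Pool.Agent.N299.DT.Pub

open Pool.Agent.H188R3 (IsMinTensor)

/-- the constant sequence `a` in `ℓ^∞(ℕ, A)` -/
def const {A : Type} [CStarAlgebra A] (a : A) : ℕ →ᵇ A := BoundedContinuousFunction.const ℕ a

/-- `q : ℓ^∞(ℕ, A) → Q` is the ultrapower `A_ω`: it is surjective and its kernel consists of the
bounded sequences with `lim_{n → ω} ‖x n‖ = 0` -/
structure IsUltrapower {A Q : Type} [CStarAlgebra A] [CStarAlgebra Q] (ω : Ultrafilter ℕ)
    (q : (ℕ →ᵇ A) →⋆ₐ[ℂ] Q) : Prop where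
  surjective : Function.Surjective q
  kernel : ∀ x : ℕ →ᵇ A, q x = 0 ↔ Tendsto (fun n => ‖x n‖) ω (𝓝 0)

/-- the central sequence algebra `A_ω ∩ A'` -/
def CentralSeq {A Q : Type} [CStarAlgebra A] [CStarAlgebra Q] (q : (ℕ →ᵇ A) →⋆ₐ[ℂ] Q) :
    StarSubalgebra ℂ Q :=
  StarSubalgebra.centralizer ℂ (Set.range fun a : A => q (const a))

/-- the Rørdam–Winter criterion for `𝒵`-stability of a separable unital C*-algebra `A`: for all `n`,
finite sets `F` and `ε > 0` there are contractions `c 0 ≥ 0, c 1, …, c n, s` which satisfy, up to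
`ε`, the relations of the dimension drop algebra `Z_{n+1,n+2}` and commute, up to `ε`, with `F` -/
def RordamWinter (A : Type) [CStarAlgebra A] : Prop :=
  ∀ (n : ℕ) (F : Finset A) (ε : ℝ), 0 < ε → ∃ (c : Fin (n + 1) → A) (s : A),
    (∀ i, ‖c i‖ ≤ 1) ∧ ‖s‖ ≤ 1 ∧
    (∃ d : A, c 0 = star d * d) ∧
    (∀ i, ‖c i * star (c i) - c 0 * c 0‖ ≤ ε) ∧
    (∀ i j, i ≠ j → ‖c i * star (c j)‖ ≤ ε) ∧
    ‖star s * s + ∑ i, star (c i) * c i - 1‖ ≤ ε ∧ ‖c 0 * s - s‖ ≤ ε ∧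
    (∀ i, ∀ a ∈ F, ‖c i * a - a * c i‖ ≤ ε) ∧ (∀ a ∈ F, ‖s * a - a * s‖ ≤ ε)

/-- the C*-algebra `M_{n+1} ⊗ M_{n+2}` -/
abbrev MM (n : ℕ) : Type :=
  Matrix (Fin (n + 1) × Fin (n + 2)) (Fin (n + 1) × Fin (n + 2)) ℂ

/-- `F` is in the dimension drop algebra `Z_{n+1,n+2}`: the continuous functions `F` from `[0,1]` to
`M_{n+1} ⊗ M_{n+2}` with `F(0) ∈ M_{n+1} ⊗ 1` and `F(1) ∈ 1 ⊗ M_{n+2}` -/
def DimDrop (n : ℕ) (F : C(unitInterval, MM n)) : Prop :=
  (∃ x : Matrix (Fin (n + 1)) (Fin (n + 1)) ℂ,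
    F 0 = x ⊗ₖ (1 : Matrix (Fin (n + 2)) (Fin (n + 2)) ℂ)) ∧
  ∃ y : Matrix (Fin (n + 2)) (Fin (n + 2)) ℂ,
    F 1 = (1 : Matrix (Fin (n + 1)) (Fin (n + 1)) ℂ) ⊗ₖ y

/-- the restriction of `φ` to `Z_{n+1,n+2}` is an injective unital *-homomorphism -/
structure IsEmb (n : ℕ) {Z : Type} [CStarAlgebra Z] (φ : C(unitInterval, MM n) → Z) : Prop where
  one : φ 1 = 1
  add : ∀ F G, DimDrop n F → DimDrop n G → φ (F + G) = φ F + φ G
  smul : ∀ (c : ℂ) (F), DimDrop n F → φ (c • F) = c • φ F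
  mul : ∀ F G, DimDrop n F → DimDrop n G → φ (F * G) = φ F * φ G
  star : ∀ F, DimDrop n F → φ (star F) = star (φ F)
  inj : ∀ F, DimDrop n F → φ F = 0 → F = 0

/-- tracial states -/
structure IsTrace {Z : Type} [CStarAlgebra Z] (τ : Z →ₗ[ℂ] ℂ) : Prop where
  one : τ 1 = 1
  comm : ∀ x y, τ (x * y) = τ (y * x)
  pos : ∀ x, 0 ≤ (τ (star x * x)).re ∧ (τ (star x * x)).im = 0

/-- `Z` is the Jiang–Su algebra: a simple unital C*-algebra with exactly one tracial state which is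
the inductive limit of dimension drop algebras `Z_{n k + 1, n k + 2}` with unital embeddings as
connecting maps, where `n k → ∞` -/
structure IsJiangSuAlgebra (Z : Type) [CStarAlgebra Z] : Prop where
  simple : ∀ I : Submodule ℂ Z, IsClosed (I : Set Z) → (∀ x ∈ I, ∀ y z, y * x * z ∈ I) →
    I = ⊥ ∨ I = ⊤
  trace : ∃! τ : Z →ₗ[ℂ] ℂ, IsTrace τ
  lim : ∃ (n : ℕ → ℕ) (φ : ∀ k, C(unitInterval, MM (n k)) → Z), Tendsto n atTop atTop ∧
    (∀ k, IsEmb (n k) (φ k)) ∧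
    (∀ k F, DimDrop (n k) F → ∃ G, DimDrop (n (k + 1)) G ∧ φ (k + 1) G = φ k F) ∧
    ∀ (z : Z) (ε : ℝ), 0 < ε → ∃ k F, DimDrop (n k) F ∧ ‖z - φ k F‖ < ε

/-- `Z` has approximately inner half flip: the embeddings `z ↦ z ⊗ 1` and `z ↦ 1 ⊗ z` of `Z` into
the minimal tensor product `Z ⊗ Z` are approximately unitarily equivalent -/
def HasInnerHalfFlip (Z : Type) [CStarAlgebra Z] : Prop :=
  ∀ (T : Type) [CStarAlgebra T] (f g : Z →⋆ₐ[ℂ] T), IsMinTensor f g →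
    ∀ (F : Finset Z) (ε : ℝ), 0 < ε → ∃ u ∈ unitary T, ∀ z ∈ F, ‖u * f z * star u - g z‖ < ε

/-- `A` absorbs `Z`: `A ⊗ Z ≅ A` (minimal tensor product) -/
def Absorbs (A Z : Type) [CStarAlgebra A] [CStarAlgebra Z] : Prop :=
  ∃ (T : Type) (_ : CStarAlgebra T) (f : A →⋆ₐ[ℂ] T) (g : Z →⋆ₐ[ℂ] T),
    IsMinTensor f g ∧ Nonempty (T ≃⋆ₐ[ℂ] A)

/-- `E` is generated by the images of a sequence of commuting unital *-homomorphisms `φ k : D → E`
(for example, `E` is the minimal infinite tensor power of `D`) -/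
structure IsGenByCommuting {D E : Type} [CStarAlgebra D] [CStarAlgebra E]
    (φ : ℕ → D →⋆ₐ[ℂ] E) : Prop where
  comm : ∀ j k, j ≠ k → ∀ x y, φ j x * φ k y = φ k y * φ j x
  gen : (StarAlgebra.adjoin ℂ {x | ∃ j d, x = φ j d}).topologicalClosure = ⊤

end Pool.Agent.N299.DT.Pub
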