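import Pool.Agent.N299.DT.All

/-!
Project DT: final form.
-/

set_option autoImplicit false

open scoped BoundedContinuousFunction Topology
open Filter

noncomputable section

namespace Pool.Agent.N299.DT

open Pool.Agent.H308R2.ZS (IsJiangSu)

/-- a unital character is a non-zero character -/
lemma no_unital_char {B : Type} [CStarAlgebra B] (h : ∀ χ : B →⋆ₙₐ[ℂ] ℂ, χ = 0) :
    ∀ _ : B →⋆ₐ[ℂ] ℂ, False := by
  intro χ
  have h1 := h (χ : B →⋆ₙₐ[ℂ] ℂ)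
  have h2 : χ 1 = 0 := by
    have := DFunLike.congr_fun h1 (1 : B)
    simpa using this
  rw [map_one] at h2
  exact one_ne_zero h2

/-- the same for the central sequence algebra -/
lemma no_unital_char' {A Q : Type} [CStarAlgebra A] [CStarAlgebra Q] {q : (ℕ →ᵇ A) →⋆ₐ[ℂ] Q}
    (h : ∀ χ : Cen q →⋆ₙₐ[ℂ] ℂ, χ = 0) : ∀ _ : Cen q →⋆ₐ[ℂ] ℂ, False := by
  intro χ
  have h1 := h (χ : Cen q →⋆ₙₐ[ℂ] ℂ)
  have h2 : χ 1 = 0 := by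
    have := DFunLike.congr_fun h1 (1 : Cen q)
    simpa using this
  rw [map_one] at h2
  exact one_ne_zero h2

/-- unital homomorphisms from a simple algebra are injective -/
lemma inj_of_jiangSu {Z : Type} [CStarAlgebra Z] {τ : Z →ₗ[ℂ] ℂ} (hZ : IsJiangSu Z τ)
    {Q : Type} [CStarAlgebra Q] [Nontrivial Q] (θ : Z →⋆ₐ[ℂ] Q) : Function.Injective θ := by
  have := Pool.Agent.W658.ZS.isSimpleRing_of (Pool.Agent.W658.ZS.simple_jiangSu Z τ hZ)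
  exact RingHom.injective (θ : Z →+* Q)

/-- the ultrapower is non-zero -/
lemma nontrivial_up {A Q : Type} [CStarAlgebra A] [CStarAlgebra Q] {ω : Ultrafilter ℕ}
    {q : (ℕ →ᵇ A) →⋆ₐ[ℂ] Q} (hq : IsUP A Q ω q) [Nontrivial A] : Nontrivial Q := by
  refine ⟨⟨1, 0, fun h => ?_⟩⟩
  have h1 : q 1 = 0 := by rw [map_one, h]
  rw [hq.ker] at h1
  have h2 : Tendsto (fun _ : ℕ => ‖(1 : A)‖) ω (𝓝 0) := h1
  have h3 := tendsto_nhds_unique h2 tendsto_const_nhds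
  exact norm_ne_zero_iff.2 (one_ne_zero : (1 : A) ≠ 0) h3.symm

/-- the embedding -/
theorem res_emb (hNS : S_NS) (hZA : S_ZA) : ∀ (A Q : Type) [CStarAlgebra A] [CStarAlgebra Q]
    [TopologicalSpace.SeparableSpace A] (ω : Ultrafilter ℕ)
    (q : (ℕ →ᵇ A) →⋆ₐ[ℂ] Q), IsUP A Q ω q → (ω : Filter ℕ) ≤ atTop →
    (∀ _ : Cen q →⋆ₐ[ℂ] ℂ, False) → ∀ (Z : Type) [CStarAlgebra Z] (τ : Z →ₗ[ℂ] ℂ),
    IsJiangSu Z τ → ∃ θ : Z →⋆ₐ[ℂ] Cen q, Nontrivial A → Function.Injective θ := by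
  intro A Q _ _ _ ω q hq hω hχ Z _ τ hZ
  obtain ⟨θ, hθ⟩ := all_EMB hNS hZA A Q ω q hq hω hχ Z τ hZ
  refine ⟨θ.codRestrict (Cen q) hθ, fun hA => ?_⟩
  have := nontrivial_up hq
  have h := inj_of_jiangSu hZ θ
  intro x y hxy
  exact h (congrArg Subtype.val hxy)

/-- Kirchberg–Rørdam question -/
theorem res_KR (hNS : S_NS) (hZA : S_ZA) (hINT : S_INT) :
    ∀ (A : Type) [CStarAlgebra A] [TopologicalSpace.SeparableSpace A] (ω : Ultrafilter ℕ),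
      (ω : Filter ℕ) ≤ cofinite →
    ∀ (Q : Type) [CStarAlgebra Q] (q : (ℕ →ᵇ A) →⋆ₐ[ℂ] Q), IsUP A Q ω q →
      (∀ χ : Cen q →⋆ₙₐ[ℂ] ℂ, χ = 0) →
    ZSt A ∧ ∀ (Z : Type) [CStarAlgebra Z] (τ : Z →ₗ[ℂ] ℂ), IsJiangSu Z τ →
      (∃ θ : Z →⋆ₐ[ℂ] Cen q, Nontrivial A → Function.Injective θ) ∧
      (HalfFlip Z → Absb A Z) := by
  intro A _ _ ω hω Q _ q hq hχ
  rw [Nat.cofinite_eq_atTop] at hω
  have hχ' := no_unital_char' hχ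
  refine ⟨(all_MAIN hNS hZA A Q ω q hq hω hχ').2, fun Z _ τ hZ => ⟨?_, fun hf => ?_⟩⟩
  · exact res_emb hNS hZA A Q ω q hq hω hχ' Z τ hZ
  · exact all_ABSJ hNS hZA hINT A Q ω q hq hω hχ' Z τ hZ hf

lemma hyper_le : ((hyperfilter ℕ : Ultrafilter ℕ) : Filter ℕ) ≤ atTop := by
  rw [← Nat.cofinite_eq_atTop]
  exact hyperfilter_le_cofinite

/-- Dadarlat–Toms question -/
theorem res_DT (hNS : S_NS) (hZA : S_ZA) (hINT : S_INT) :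
    ∀ (D E : Type) [CStarAlgebra D] [CStarAlgebra E] [TopologicalSpace.SeparableSpace D]
      (φ : ℕ → D →⋆ₐ[ℂ] E), IsTP D E φ → (∀ χ : D →⋆ₙₐ[ℂ] ℂ, χ = 0) →
    ZSt E ∧ ∀ (Z : Type) [CStarAlgebra Z] (τ : Z →ₗ[ℂ] ℂ), IsJiangSu Z τ →
      HalfFlip Z → Absb E Z ∧ Nonempty (Z →⋆ₐ[ℂ] E) := by
  intro D E _ _ _ φ hφ hD
  have hE : TopologicalSpace.SeparableSpace E := separable_of_tp hφ
  obtain ⟨Q, iQ, q, hq⟩ := Pool.Agent.N704.DT.t_UPX E (hyperfilter ℕ)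
  have hχ := no_char_of_tp hφ hq hyper_le (no_unital_char hD)
  refine ⟨(all_MAIN hNS hZA E Q (hyperfilter ℕ) q hq hyper_le hχ).2, fun Z _ τ hZ hf => ?_⟩
  have h := all_ABSJ hNS hZA hINT E Q (hyperfilter ℕ) q hq hyper_le hχ Z τ hZ hf
  refine ⟨h, ?_⟩
  obtain ⟨T, iT, f, g, -, ⟨e⟩⟩ := h
  exact ⟨(e : T →⋆ₐ[ℂ] E).comp g⟩

end Pool.Agent.N299.DT
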