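import Pool.Agent.N299.DT.Pub
import Pool.Agent.N299.DT.Res

/-!
The public definitions imply the ones used in the proof.
-/

set_option autoImplicit false

open scoped BoundedContinuousFunction Topology Kronecker Matrix.Norms.L2Operator
open Filter

noncomputable section

namespace Pool.Agent.N299.DT.Pub

open Pool.Agent.H308R2.ZS (dimDrop IsJiangSu TS lft rgt)

lemma mem_dimDrop (n : ℕ) (F : C(unitInterval, MM n)) : F ∈ dimDrop n ↔ DimDrop n F := Iff.rfl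

instance dimDrop_complete (n : ℕ) : CompleteSpace (dimDrop n) :=
  (Pool.Agent.H308R2.ZS.dimDrop_closed n).completeSpace_coe

lemma isometry_of_inj {n : ℕ} {Z : Type} [CStarAlgebra Z] (f : dimDrop n →⋆ₐ[ℂ] Z)
    (hf : Function.Injective f) : Isometry f := by
  let : CStarAlgebra (dimDrop n) :=
    StarSubalgebra.cstarAlgebra (dimDrop n) (h_closed := Pool.Agent.H308R2.ZS.dimDrop_closed n)
  exact NonUnitalStarAlgHom.isometry f hf

/-- the homomorphism on the dimension drop algebra -/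
def embHom {n : ℕ} {Z : Type} [CStarAlgebra Z] {φ : C(unitInterval, MM n) → Z} (h : IsEmb n φ) :
    dimDrop n →⋆ₐ[ℂ] Z where
  toFun F := φ F
  map_one' := h.one
  map_mul' F G := h.mul F G F.2 G.2
  map_zero' := by
    have h1 := h.smul 0 0 (dimDrop n).zero_mem
    rw [zero_smul ℂ (φ 0)] at h1
    have h2 : ((0 : ℂ) • (0 : C(unitInterval, MM n))) = 0 := by
      ext x i j
      show (0 : ℂ) * (0 : ℂ) = 0
      simp
    rw [h2] at h1
    exact h1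
  map_add' F G := h.add F G F.2 G.2
  commutes' c := by
    have h1 : ((algebraMap ℂ (dimDrop n) c : dimDrop n) : C(unitInterval, MM n)) = c • 1 := by
      rw [Algebra.algebraMap_eq_smul_one]
      rfl
    show φ ((algebraMap ℂ (dimDrop n) c : dimDrop n) : C(unitInterval, MM n)) = _
    rw [h1, h.smul c 1 (dimDrop n).one_mem, h.one, Algebra.algebraMap_eq_smul_one]
  map_star' F := h.star F F.2

lemma embHom_inj {n : ℕ} {Z : Type} [CStarAlgebra Z] {φ : C(unitInterval, MM n) → Z}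
    (h : IsEmb n φ) : Function.Injective (embHom h) := by
  rw [injective_iff_map_eq_zero]
  intro F hF
  exact Subtype.ext (h.inj F F.2 hF)

theorem isJiangSu_of {Z : Type} [CStarAlgebra Z] (h : IsJiangSuAlgebra Z) :
    ∃ τ : Z →ₗ[ℂ] ℂ, IsJiangSu Z τ := by
  obtain ⟨τ, hτ, hu⟩ := h.trace
  obtain ⟨n, φ, hn, hφ, hinc, hd⟩ := h.lim
  have key : ∀ k, Isometry (embHom (hφ k)) := fun k =>
    isometry_of_inj (embHom (hφ k)) (embHom_inj (hφ k))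
  refine ⟨τ, h.simple, ⟨hτ.one, hτ.comm, hτ.pos⟩, fun τ' h' => hu τ' ⟨h'.one, h'.comm, h'.pos⟩,
    n, fun k => (embHom (hφ k)).range, ?_, hn, ?_, ?_, ?_⟩
  · refine monotone_nat_of_le_succ fun k => ?_
    rintro _ ⟨F, rfl⟩
    obtain ⟨G, hG, h1⟩ := hinc k F F.2
    exact ⟨⟨G, hG⟩, h1⟩
  · intro k
    have : ((embHom (hφ k)).range : Set Z) = Set.range (embHom (hφ k)) := rfl
    rw [this]
    exact (key k).isClosedEmbedding.isClosed_range
  · intro k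
    exact ⟨StarAlgEquiv.ofInjective (embHom (hφ k)) (embHom_inj (hφ k))⟩
  · intro z
    rw [Metric.mem_closure_iff]
    intro ε hε
    obtain ⟨k, F, hF, h1⟩ := hd z ε hε
    exact ⟨φ k F, Set.mem_iUnion.2 ⟨k, ⟨F, hF⟩, rfl⟩, by rwa [dist_eq_norm]⟩

lemma isUP_iff {A Q : Type} [CStarAlgebra A] [CStarAlgebra Q] (ω : Ultrafilter ℕ)
    (q : (ℕ →ᵇ A) →⋆ₐ[ℂ] Q) : IsUltrapower ω q ↔ IsUP A Q ω q :=
  ⟨fun h => ⟨h.surjective, h.kernel⟩, fun h => ⟨h.1, h.2⟩⟩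

lemma isTP_of {D E : Type} [CStarAlgebra D] [CStarAlgebra E] {φ : ℕ → D →⋆ₐ[ℂ] E}
    (h : IsGenByCommuting φ) : IsTP D E φ :=
  ⟨h.comm, h.gen⟩

theorem pub_KR :
    ∀ (A : Type) [CStarAlgebra A] [TopologicalSpace.SeparableSpace A] (ω : Ultrafilter ℕ),
      (ω : Filter ℕ) ≤ cofinite →
    ∀ (Q : Type) [CStarAlgebra Q] (q : (ℕ →ᵇ A) →⋆ₐ[ℂ] Q), IsUltrapower ω q →
      (∀ χ : CentralSeq q →⋆ₙₐ[ℂ] ℂ, χ = 0) →
    RordamWinter A ∧ ∀ (Z : Type) [CStarAlgebra Z], IsJiangSuAlgebra Z →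
      (∃ θ : Z →⋆ₐ[ℂ] CentralSeq q, Nontrivial A → Function.Injective θ) ∧
      (HasInnerHalfFlip Z → Absorbs A Z) := by
  intro A _ _ ω hω Q _ q hq hχ
  have h := res_KR all_NS all_ZA Pool.Agent.N438.DT.t_INT A ω hω Q q ((isUP_iff ω q).1 hq) hχ
  refine ⟨h.1, fun Z _ hZ => ?_⟩
  obtain ⟨τ, hτ⟩ := isJiangSu_of hZ
  exact h.2 Z τ hτ

theorem pub_DT :
    ∀ (D E : Type) [CStarAlgebra D] [CStarAlgebra E] [TopologicalSpace.SeparableSpace D]
      (φ : ℕ → D →⋆ₐ[ℂ] E), IsGenByCommuting φ → (∀ χ : D →⋆ₙₐ[ℂ] ℂ, χ = 0) →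
    RordamWinter E ∧ ∀ (Z : Type) [CStarAlgebra Z], IsJiangSuAlgebra Z →
      HasInnerHalfFlip Z → Absorbs E Z ∧ Nonempty (Z →⋆ₐ[ℂ] E) := by
  intro D E _ _ _ φ hφ hχ
  have h := res_DT all_NS all_ZA Pool.Agent.N438.DT.t_INT D E φ (isTP_of hφ) hχ
  refine ⟨h.1, fun Z _ hZ hf => ?_⟩
  obtain ⟨τ, hτ⟩ := isJiangSu_of hZ
  exact h.2 Z τ hτ hf

theorem pub_UPX (A : Type) [CStarAlgebra A] (ω : Ultrafilter ℕ) :
    ∃ (Q : Type) (_ : CStarAlgebra Q) (q : (ℕ →ᵇ A) →⋆ₐ[ℂ] Q), IsUltrapower ω q := by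
  obtain ⟨Q, i, q, h⟩ := Pool.Agent.N704.DT.t_UPX A ω
  exact ⟨Q, i, q, (isUP_iff ω q).2 h⟩

end Pool.Agent.N299.DT.Pub
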